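import Pool.Agent.Work.MP_f1a024_nt.AH.Stmts

set_option autoImplicit false

/-!
# MP_f1a024 NE: no Euler type formula for odd `n`.  Definitions (captain helper56)

For a function `c` on the primes with values in `{0, 1, 2}` put
`ρ_c(m) = ∑_k k^(-m) ∏_(p | k) c(p) = ∏_p (1 + c(p)/(p^m - 1))`.  For a completely multiplicative
function `f` with values in `{-1, 0, 1}` and `c = 1 - f` this is `ζ(m)/L(m, f)`.
-/

namespace Pool.Agent.Work.MP_f1a024_nt.NE

open Pool.Agent.Work.MP_f1a024_nt.AH (PG IsP val Ind)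

/-- `k ↦ ∏_(p | k) c(p)` -/
def hh (c : ℕ → Fin 3) : ArithmeticFunction ℚ :=
  ⟨fun n => if n = 0 then 0 else ∏ p ∈ n.primeFactors, ((c p : ℕ) : ℚ), by simp⟩

/-- `ρ_c(m)` -/
noncomputable def rho (c : ℕ → Fin 3) (m : ℕ) : ℝ := val (hh c) m

/-- `c(p) ≠ 0` for infinitely many primes `p` -/
def InfS (c : ℕ → Fin 3) : Prop := {p : ℕ | p.Prime ∧ c p ≠ 0}.Infinite

/-- value of an integer polynomial at a real number -/
noncomputable def ev (P : Polynomial ℤ) (x : ℝ) : ℝ := (P.map (Int.castRingHom ℝ)).eval x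

/-- `P ≠ 0` has degree `≤ d` and coefficients bounded by `b` -/
structure Bdp (P : Polynomial ℤ) (d : ℕ) (b : ℝ) : Prop where
  ne : P ≠ 0
  deg : P.natDegree ≤ d
  coe : ∀ i, |(P.coeff i : ℝ)| ≤ b

/-- the part of `c` at the primes `≥ N` -/
def cut (N : ℕ) (c : ℕ → Fin 3) : ℕ → Fin 3 := fun p => if p < N then 0 else c p

/-- the function `1 - f` of a function with values in `{-1, 0, 1}` -/
def dual (f : ℕ → ℤ) : ℕ → Fin 3 := fun p => if f p = 1 then 0 else if f p = 0 then 1 else 2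

/-- completely multiplicative functions with values in `{-1, 0, 1}` -/
structure Sg (f : ℕ → ℤ) : Prop where
  zero : f 0 = 0
  one : f 1 = 1
  mul : ∀ a b, f (a * b) = f a * f b
  val : ∀ n, f n = -1 ∨ f n = 0 ∨ f n = 1

/-- odd primitive quadratic characters (the characters of the imaginary quadratic fields) -/
structure Im (q : ℕ) [NeZero q] (χ : DirichletCharacter ℂ q) : Prop where
  prim : χ.IsPrimitive
  quad : χ.IsQuadratic
  odd : χ.Odd

/-- `∑_a χ(a) B_n(a/q)` -/
noncomputable def bb (n q : ℕ) [NeZero q] (χ : DirichletCharacter ℂ q) : ℂ :=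
  ∑ a : ZMod q, χ a * (((Polynomial.bernoulli n).eval ((a.val : ℚ) / q) : ℚ) : ℂ)

end Pool.Agent.Work.MP_f1a024_nt.NE
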