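import Pool.Agent.Work.MP_f1a024_nt.NE.Stmts

set_option autoImplicit false

/-!
# MP_f1a024 NE, item A
-/

namespace Pool.Agent.Work.MP_f1a024_nt.NE

open Pool.Agent.Work.MP_f1a024_nt.AH (PG IsP val Ind)
open Filter Topology

namespace IA

theorem bdp_mono {P : Polynomial ℤ} {d : ℕ} {b b' : ℝ} (h : Bdp P d b) (hb : b ≤ b') :
    Bdp P d b' :=
  ⟨h.ne, h.deg, fun i => (h.coe i).trans hb⟩

theorem pow_le_max (B : ℝ) (m : ℕ) : B ^ m ≤ (max |B| 1) ^ m := by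
  calc B ^ m ≤ |B ^ m| := le_abs_self _
    _ = |B| ^ m := abs_pow _ _
    _ ≤ (max |B| 1) ^ m := pow_le_pow_left₀ (abs_nonneg _) (le_max_left _ _) _

end IA

theorem pr_A (hNb : StNb) (hNf : StNf) (hCpt : StCpt) : StA := by
  intro d B
  have hB : (1 : ℝ) ≤ max |B| 1 := le_max_right _ _
  obtain ⟨M, hM⟩ := hCpt (fun c m => InfS c → ∀ P : Polynomial ℤ,
    Bdp P d ((max |B| 1) ^ m) → ev P (rho c m) ≠ 0) (by
      intro c
      by_cases hc : InfS c
      · obtain ⟨N, M, h⟩ := hNb c hc d (max |B| 1) hB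
        exact ⟨N, M, fun c' hcc m hm _ P hP => h c' hcc m hm P hP⟩
      · obtain ⟨N, M, h⟩ := hNf c hc d (max |B| 1) hB
        exact ⟨N, M, fun c' hcc m hm hinf P hP => h c' hinf hcc m hm P hP⟩)
  exact ⟨M, fun m hm c hc P hP => hM c m hm hc P (IA.bdp_mono hP (IA.pow_le_max B m))⟩

end Pool.Agent.Work.MP_f1a024_nt.NE
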