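import Pool.Agent.Work.MP_f1a024_nt.NE.Stmts

set_option autoImplicit false

/-!
# MP_f1a024 NE, item B: THEOREM B
-/

namespace Pool.Agent.Work.MP_f1a024_nt.NE

open Pool.Agent.Work.MP_f1a024_nt.AH (PG IsP val Ind)
open Filter Topology

namespace IB

theorem aeval_eq (P : Polynomial ℤ) (x : ℝ) :
    Polynomial.aeval (x : ℂ) P = ((ev P x : ℝ) : ℂ) := by
  have h1 : ev P x = Polynomial.aeval x P := by
    unfold ev
    rw [Polynomial.eval_map, Polynomial.aeval_def]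
    rfl
  rw [h1]
  exact Polynomial.aeval_algebraMap_apply ℂ x P

theorem Bdp_neg {P : Polynomial ℤ} {d : ℕ} {b : ℝ} (h : Bdp P d b) :
    Bdp (P.comp (-Polynomial.X)) d b := by
  have hinv : (P.comp (-Polynomial.X)).comp (-Polynomial.X) = P := by
    rw [Polynomial.comp_assoc]
    simp
  refine ⟨?_, ?_, ?_⟩
  · intro h0
    apply h.ne
    rw [← hinv, h0, Polynomial.zero_comp]
  · refine le_trans Polynomial.natDegree_comp_le ?_
    rw [Polynomial.natDegree_neg, Polynomial.natDegree_X, mul_one]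
    exact h.deg
  · intro i
    have e : (-Polynomial.X : Polynomial ℤ) = Polynomial.C (-1) * Polynomial.X := by simp
    rw [e, Polynomial.comp_C_mul_X_coeff]
    push_cast
    rw [abs_mul, abs_pow, abs_neg, abs_one, one_pow, mul_one]
    exact h.coe i

end IB

theorem pr_B (hA : StA) (hZL : StZL) (hChr : StChr) (hLn : StLn) : StB := by
  intro d B
  obtain ⟨M, hM⟩ := hA d B
  refine ⟨max M 3, ?_⟩
  intro n hn hodd q _ χ hprim hquad hodd' x hE P hP0 hPd hPc hroot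
  have hn3 : 3 ≤ n := le_trans (le_max_right _ _) hn
  have hnM : M ≤ n := le_trans (le_max_left _ _) hn
  have hIm : Im q χ := ⟨hprim, hquad, hodd'⟩
  obtain ⟨f, hSg, hf, hinf⟩ := hChr q χ hIm
  obtain ⟨hsum, hrho⟩ := hZL f hSg n hn3
  set L : ℝ := ∑' k : ℕ, (f k : ℝ) / (k : ℝ) ^ n with hL
  set ρ : ℝ := rho (dual f) n with hρ
  have hHS : HasSum (fun k : ℕ => χ (k : ZMod q) / (k : ℂ) ^ n) (L : ℂ) := by
    have h1 : HasSum (fun k : ℕ => (f k : ℝ) / (k : ℝ) ^ n) L := hsum.hasSum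
    have h2 := (Complex.hasSum_ofReal).mpr h1
    convert h2 using 1
    funext k
    rw [hf k]
    push_cast
    rfl
  have hLn' := hLn q χ hIm n hodd hn3 (L : ℂ) hHS
  have hz : riemannZeta n = (ρ : ℂ) * (L : ℂ) := by
    rw [zeta_nat_eq_tsum_of_gt_one (by omega)]
    have : ((ρ * L : ℝ) : ℂ) = ((∑' k : ℕ, 1 / (k : ℝ) ^ n : ℝ) : ℂ) := by
      rw [hrho]
    rw [← Complex.ofReal_mul, this, Complex.ofReal_tsum]
    push_cast
    rfl
  have hz0 : riemannZeta (n : ℂ) ≠ 0 := by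
    apply riemannZeta_ne_zero_of_one_lt_re
    rw [Complex.natCast_re]
    have : (3 : ℝ) ≤ n := by exact_mod_cast hn3
    linarith
  have hz20 : riemannZeta (2 * (n : ℂ)) ≠ 0 := by
    apply riemannZeta_ne_zero_of_one_lt_re
    have h1 : (2 * (n : ℂ)).re = 2 * (n : ℝ) := by simp
    rw [h1]
    have : (3 : ℝ) ≤ n := by exact_mod_cast hn3
    linarith
  have hρ0 : (ρ : ℂ) ≠ 0 := by
    intro h
    apply hz0
    rw [hz, h, zero_mul]
  have hL0 : (L : ℂ) ≠ 0 := by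
    intro h
    apply hz0
    rw [hz, h, mul_zero]
  have hq0 : (q : ℂ) ≠ 0 := by
    exact_mod_cast NeZero.ne q
  have hpi : (Real.pi : ℂ) ≠ 0 := by
    exact_mod_cast Real.pi_ne_zero
  have hz2 := riemannZeta_two_mul_nat (k := n) (by omega)
  have hsgn : (-1 : ℂ) ^ (n + 1) = 1 := by
    rw [Even.neg_one_pow]
    exact hodd.add_one
  rw [hsgn, one_mul] at hz2
  have hB0 : ((bernoulli (2 * n) : ℚ) : ℂ) ≠ 0 := by
    intro h
    apply hz20
    rw [hz2, h, mul_zero, zero_div]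
  -- the value of the coefficient
  set b : ℂ := bb n q χ with hb
  have hfac : ((2 * n).choose n : ℂ) * ((n.factorial : ℂ) ^ 2) = ((2 * n).factorial : ℂ) := by
    have h1 := Nat.choose_mul_factorial_mul_factorial (n := 2 * n) (k := n) (by omega)
    have h2 : 2 * n - n = n := by omega
    rw [h2] at h1
    have h3 : (((2 * n).choose n * n.factorial * n.factorial : ℕ) : ℂ) =
        ((2 * n).factorial : ℂ) := by
      rw [h1]
    rw [← h3]
    push_cast
    ring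
  have hfn0 : ((2 * n).factorial : ℂ) ≠ 0 := by
    exact_mod_cast Nat.factorial_ne_zero _
  have hpow : (2 : ℂ) * (2 : ℂ) ^ (2 * n - 1) = (2 : ℂ) ^ (2 * n) := by
    rw [← pow_succ']
    congr 1
    omega
  have hz2' : 2 * riemannZeta (2 * (n : ℂ)) * ((2 * n).factorial : ℂ) =
      (2 * Real.pi : ℂ) ^ (2 * n) * ((bernoulli (2 * n) : ℚ) : ℂ) := by
    rw [hz2, mul_pow, ← hpow]
    field_simp
  have h2pi : (2 * Real.pi : ℂ) ^ (2 * n) ≠ 0 := pow_ne_zero _ (mul_ne_zero two_ne_zero hpi)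
  -- the key equation
  have hkey : riemannZeta (2 * (n : ℂ)) * ((2 * n).choose n : ℂ) * b ^ 2 =
      2 * q * ((bernoulli (2 * n) : ℚ) : ℂ) * (L : ℂ) ^ 2 := by
    have e1 : (2 * Real.pi : ℂ) ^ (2 * n) *
        (riemannZeta (2 * (n : ℂ)) * ((2 * n).choose n : ℂ) * b ^ 2) =
        (2 * Real.pi : ℂ) ^ (2 * n) *
        (2 * q * ((bernoulli (2 * n) : ℚ) : ℂ) * (L : ℂ) ^ 2) := by
      calc (2 * Real.pi : ℂ) ^ (2 * n) *
          (riemannZeta (2 * (n : ℂ)) * ((2 * n).choose n : ℂ) * b ^ 2)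
          = riemannZeta (2 * (n : ℂ)) * ((2 * n).choose n : ℂ) *
            ((2 * Real.pi : ℂ) ^ (2 * n) * b ^ 2) := by ring
        _ = riemannZeta (2 * (n : ℂ)) * ((2 * n).choose n : ℂ) *
            (4 * (n.factorial : ℂ) ^ 2 * q * (L : ℂ) ^ 2) := by rw [hLn']
        _ = 2 * q * (L : ℂ) ^ 2 * (2 * riemannZeta (2 * (n : ℂ)) *
            (((2 * n).choose n : ℂ) * ((n.factorial : ℂ) ^ 2))) := by ring
        _ = 2 * q * (L : ℂ) ^ 2 * (2 * riemannZeta (2 * (n : ℂ)) *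
            ((2 * n).factorial : ℂ)) := by rw [hfac]
        _ = _ := by
            rw [hz2']
            ring
    exact mul_left_cancel₀ h2pi e1
  have hE' : riemannZeta (2 * (n : ℂ)) / riemannZeta (n : ℂ) ^ 2 * ((2 * n).choose n : ℂ) *
      b ^ 2 * x ^ 2 = 2 * q * ((bernoulli (2 * n) : ℚ) : ℂ) := hE
  have hx2 : x ^ 2 = (ρ : ℂ) ^ 2 := by
    rw [hz] at hE'
    have e2 : riemannZeta (2 * (n : ℂ)) * ((2 * n).choose n : ℂ) * b ^ 2 * x ^ 2 =
        2 * q * ((bernoulli (2 * n) : ℚ) : ℂ) * ((ρ : ℂ) * (L : ℂ)) ^ 2 := by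
      rw [← hE']
      field_simp
    rw [hkey] at e2
    have hne : 2 * (q : ℂ) * ((bernoulli (2 * n) : ℚ) : ℂ) * (L : ℂ) ^ 2 ≠ 0 :=
      mul_ne_zero (mul_ne_zero (mul_ne_zero two_ne_zero hq0) hB0) (pow_ne_zero _ hL0)
    apply mul_left_cancel₀ hne
    rw [e2]
    ring
  have hBdp : Bdp P d (B ^ n) := ⟨hP0, hPd, hPc⟩
  rcases sq_eq_sq_iff_eq_or_eq_neg.mp hx2 with h | h
  · rw [h, IB.aeval_eq] at hroot
    exact hM n hnM (dual f) hinf P hBdp (by exact_mod_cast hroot)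
  · have h1 : Polynomial.aeval (ρ : ℂ) (P.comp (-Polynomial.X)) = 0 := by
      rw [Polynomial.aeval_comp]
      simp only [map_neg, Polynomial.aeval_X]
      rw [← h]
      exact hroot
    rw [IB.aeval_eq] at h1
    exact hM n hnM (dual f) hinf _ (IB.Bdp_neg hBdp) (by exact_mod_cast h1)

end Pool.Agent.Work.MP_f1a024_nt.NE
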