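import Pool.Agent.Work.MP_f1a024_nt.NE.Stmts

set_option autoImplicit false

/-!
# Item Bd: uniform bounds `1 ≤ ρ_c(m) ≤ 2`
-/

namespace Pool.Agent.Work.MP_f1a024_nt.NE

open Pool.Agent.Work.MP_f1a024_nt.AH (PG IsP val Ind)
open Filter Topology

namespace IBd

/-- `c` below `2`, zero above -/
def low (c : ℕ → Fin 3) : ℕ → Fin 3 := fun p => if p < 2 then c p else 0

theorem hh_one (c : ℕ → Fin 3) : hh c 1 = 1 := by
  simp [hh]

theorem hh_low (c : ℕ → Fin 3) (n : ℕ) (hn : n ≠ 1) : hh (low c) n = 0 := by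
  rcases Nat.eq_zero_or_pos n with rfl | h0
  · simp
  · have h2 : 2 ≤ n := by omega
    have hp : n.minFac.Prime := Nat.minFac_prime hn
    have hmem : n.minFac ∈ n.primeFactors :=
      Nat.mem_primeFactors.2 ⟨hp, Nat.minFac_dvd n, h0.ne'⟩
    have e : hh (low c) n = ∏ p ∈ n.primeFactors, ((low c p : ℕ) : ℚ) := by
      simp [hh, h0.ne']
    rw [e]
    refine Finset.prod_eq_zero hmem ?_
    have : ¬ n.minFac < 2 := not_lt.2 hp.two_le
    simp [low, this]

theorem rho_low (c : ℕ → Fin 3) (m : ℕ) : rho (low c) m = 1 := by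
  unfold rho val
  rw [tsum_eq_single 1]
  · rw [hh_one]
    simp
  · intro n hn
    rw [hh_low c n hn]
    simp

end IBd

open IBd in
theorem pr_Bd (hH1 : StH1) (hTl : StTl) : StBd := by
  obtain ⟨C, M, hC, h⟩ := hTl 2 (by norm_num)
  have hlim : Tendsto (fun m : ℕ => C * (1 / ((2 : ℕ) : ℝ)) ^ m) atTop (𝓝 (C * 0)) :=
    (tendsto_pow_atTop_nhds_zero_of_lt_one (by norm_num) (by norm_num)).const_mul C
  rw [mul_zero] at hlim
  obtain ⟨M1, hM1⟩ := eventually_atTop.1 (hlim.eventually (gt_mem_nhds (zero_lt_one' ℝ)))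
  refine ⟨max (max M M1) 3, fun m hm c => ⟨?_, ?_⟩⟩
  · have hm3 : 3 ≤ m := (le_max_right _ _).trans hm
    obtain ⟨-, -, -, hnn, hs⟩ := hH1 c
    have hle := (hs m hm3).le_tsum 1 (fun n _ => ?_)
    · rw [hh_one] at hle
      unfold rho val
      simpa using hle
    · have : (0 : ℝ) ≤ ((hh c n : ℚ) : ℝ) := by exact_mod_cast (hnn n).1
      positivity
  · have h1 : M ≤ m := (le_max_left _ _).trans ((le_max_left _ _).trans hm)
    have h2 : M1 ≤ m := (le_max_right _ _).trans ((le_max_left _ _).trans hm)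
    have h3 := h m h1 c (low c) (fun p hp => by simp [low, hp])
    rw [rho_low] at h3
    have h4 := hM1 m h2
    have h5 := (abs_le.1 h3).2
    linarith

end Pool.Agent.Work.MP_f1a024_nt.NE
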