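import Pool.Agent.Work.MP_f1a024_nt.NE.Stmts

set_option autoImplicit false

/-!
# MP_f1a024 NE, item Chr: the integer valued function of an odd quadratic character
-/

namespace Pool.Agent.Work.MP_f1a024_nt.NE

theorem pr_Chr : StChr := by
  classical
  intro q _ χ hχ
  have hq1 : q ≠ 1 := by
    intro h
    subst h
    have h1 : χ (-1) = -1 := hχ.odd
    have h2 : (-1 : ZMod 1) = 1 := Subsingleton.elim _ _
    rw [h2, map_one] at h1
    norm_num at h1
  have hnt : Nontrivial (ZMod q) := ZMod.nontrivial_iff.mpr hq1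
  let f : ℕ → ℤ := fun k => if χ (k : ZMod q) = 0 then 0 else if χ (k : ZMod q) = 1 then 1 else -1
  have hf : ∀ k : ℕ, χ (k : ZMod q) = (f k : ℂ) := by
    intro k
    by_cases h0 : χ (k : ZMod q) = 0
    · have : f k = 0 := if_pos h0
      rw [this, h0]
      norm_num
    · by_cases h1 : χ (k : ZMod q) = 1
      · have : f k = 1 := by
          change (if χ (k : ZMod q) = 0 then (0 : ℤ) else if χ (k : ZMod q) = 1 then 1 else -1) = 1
          rw [if_neg h0, if_pos h1]
        rw [this, h1]
        norm_num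
      · have : f k = -1 := by
          change (if χ (k : ZMod q) = 0 then (0 : ℤ) else if χ (k : ZMod q) = 1 then 1 else -1) = -1
          rw [if_neg h0, if_neg h1]
        have h2 : χ (k : ZMod q) = -1 := by
          rcases hχ.quad (k : ZMod q) with h | h | h
          · exact absurd h h0
          · exact absurd h h1
          · exact h
        rw [this, h2]
        norm_num
  refine ⟨f, ⟨?_, ?_, ?_, ?_⟩, hf, ?_⟩
  · have h : ((f 0 : ℤ) : ℂ) = ((0 : ℤ) : ℂ) := by
      rw [← hf 0, Nat.cast_zero, MulChar.map_zero]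
      norm_num
    exact_mod_cast h
  · have h : ((f 1 : ℤ) : ℂ) = ((1 : ℤ) : ℂ) := by
      rw [← hf 1]
      simp
    exact_mod_cast h
  · intro a b
    have h : ((f (a * b) : ℤ) : ℂ) = ((f a * f b : ℤ) : ℂ) := by
      rw [← hf (a * b), Nat.cast_mul, map_mul, hf a, hf b]
      push_cast
      rfl
    exact_mod_cast h
  · intro n
    change (if χ (n : ZMod q) = 0 then (0 : ℤ) else if χ (n : ZMod q) = 1 then 1 else -1) = -1 ∨
      (if χ (n : ZMod q) = 0 then (0 : ℤ) else if χ (n : ZMod q) = 1 then 1 else -1) = 0 ∨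
      (if χ (n : ZMod q) = 0 then (0 : ℤ) else if χ (n : ZMod q) = 1 then 1 else -1) = 1
    split_ifs
    · exact Or.inr (Or.inl rfl)
    · exact Or.inr (Or.inr rfl)
    · exact Or.inl rfl
  · have hinf := Nat.infinite_setOfPred_prime_and_eq_mod (q := q) (a := (-1 : ZMod q))
      isUnit_one.neg
    refine hinf.mono ?_
    intro p hp
    obtain ⟨hp1, hp2⟩ := hp
    refine ⟨hp1, ?_⟩
    have h1 : ((f p : ℤ) : ℂ) = ((-1 : ℤ) : ℂ) := by
      rw [← hf p, hp2]
      have : χ (-1) = -1 := hχ.odd
      rw [this]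
      norm_num
    have h2 : f p = -1 := by exact_mod_cast h1
    unfold dual
    rw [h2]
    decide

end Pool.Agent.Work.MP_f1a024_nt.NE
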