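import Pool.Agent.Work.MP_f1a024_nt.NE.Stmts

set_option autoImplicit false

/-!
# MP_f1a024 NE, item Cpt: compactness of the space of functions with values in `Fin 3`
-/

namespace Pool.Agent.Work.MP_f1a024_nt.NE

open Filter Topology

namespace ICpt

theorem nhd (c : ℕ → Fin 3) (N : ℕ) : {c' : ℕ → Fin 3 | ∀ p < N, c p = c' p} ∈ 𝓝 c := by
  have h1 : {c' : ℕ → Fin 3 | ∀ p < N, c p = c' p} =
      ⋂ p ∈ Finset.range N, (fun c' : ℕ → Fin 3 => c' p) ⁻¹' {c p} := by
    ext c'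
    simp only [Set.mem_setOf_eq, Set.mem_iInter, Finset.mem_range, Set.mem_preimage,
      Set.mem_singleton_iff]
    exact ⟨fun h p hp => (h p hp).symm, fun h p hp => (h p hp).symm⟩
  rw [h1]
  refine (Filter.biInter_finset_mem _).2 fun p _ => ?_
  exact (continuous_apply p).continuousAt.preimage_mem_nhds
    ((isOpen_discrete ({c p} : Set (Fin 3))).mem_nhds rfl)

end ICpt

open ICpt in
/-- Compactness. -/
theorem pr_Cpt : StCpt := by
  intro Q hQ
  choose N M h using hQ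
  obtain ⟨t, -, ht⟩ := isCompact_univ.elim_nhds_subcover
    (fun c : ℕ → Fin 3 => {c' : ℕ → Fin 3 | ∀ p < N c, c p = c' p}) (fun c _ => nhd c (N c))
  refine ⟨t.sup M, fun c m hm => ?_⟩
  have hc := ht (Set.mem_univ c)
  simp only [Set.mem_iUnion] at hc
  obtain ⟨c₀, hc₀, h₀⟩ := hc
  exact h c₀ c h₀ m ((Finset.le_sup (f := M) hc₀).trans hm)

end Pool.Agent.Work.MP_f1a024_nt.NE
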