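import Pool.Agent.Work.MP_f1a024_nt.NE.Stmts

set_option autoImplicit false

/-!
# MP_f1a024 NE, item Cut
-/

namespace Pool.Agent.Work.MP_f1a024_nt.NE

open Pool.Agent.Work.MP_f1a024_nt.AH (PG IsP val Ind)

namespace ICut

theorem hh_apply (c : ℕ → Fin 3) (n : ℕ) :
    hh c n = if n = 0 then 0 else ∏ p ∈ n.primeFactors, ((c p : ℕ) : ℚ) := rfl

theorem hh_congr {c c' : ℕ → Fin 3} (h : ∀ p : ℕ, p.Prime → c p = c' p) : hh c = hh c' := by
  ext n
  rw [hh_apply, hh_apply]
  split_ifs with h0
  · rfl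
  · refine Finset.prod_congr rfl fun p hp => ?_
    rw [h p (Nat.prime_of_mem_primeFactors hp)]

theorem hh_one (c : ℕ → Fin 3) : hh c 1 = 1 := by
  rw [hh_apply]
  simp

theorem rho_zero (m : ℕ) : rho (fun _ => 0) m = 1 := by
  unfold rho val
  rw [tsum_eq_single 1]
  · rw [hh_one]
    simp
  · intro n hn
    have h1 : hh (fun _ => 0) n = 0 := by
      rw [hh_apply]
      split_ifs with h0
      · rfl
      · have h2 : n.primeFactors.Nonempty := by
          rw [Nat.nonempty_primeFactors]
          omega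
        obtain ⟨p, hp⟩ := h2
        exact Finset.prod_eq_zero hp (by simp)
    rw [h1]
    simp

end ICut

open ICut

theorem pr_Cut (hH1 : StH1) (hTl : StTl) : StCut := by
  intro N hN
  obtain ⟨C, M, hC, h⟩ := hTl N hN
  refine ⟨C, max M 3, hC, fun m hm c hinf hc => ?_⟩
  have hmM : M ≤ m := (le_max_left _ _).trans hm
  have hm3 : 3 ≤ m := (le_max_right _ _).trans hm
  obtain ⟨-, -, hp, hn, hs⟩ := hH1 c
  constructor
  · obtain ⟨q, hq, hcq⟩ := hinf.nonempty
    have hq1 : (1 : ℕ) ≠ q := fun h => by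
      rw [← h] at hq
      exact Nat.not_prime_one hq
    have h1 := (hs m hm3).sum_le_tsum {1, q} (fun n _ => by
      have := (hn n).1
      have : (0 : ℝ) ≤ ((hh c n : ℚ) : ℝ) := by exact_mod_cast this
      positivity)
    rw [Finset.sum_pair hq1, hh_one] at h1
    have h2 : (0 : ℝ) < ((hh c q : ℚ) : ℝ) := by
      rw [hp q hq]
      have h3 : 0 < (c q : ℕ) := by
        rcases Nat.eq_zero_or_pos (c q : ℕ) with h3 | h3
        · exact absurd (Fin.ext h3) hcq
        · exact h3
      exact_mod_cast h3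
    have h4 : (0 : ℝ) < ((hh c q : ℚ) : ℝ) / (q : ℝ) ^ m := by
      have : (0 : ℝ) < (q : ℝ) := by exact_mod_cast hq.pos
      positivity
    have h5 : rho c m = ∑' n : ℕ, ((hh c n : ℚ) : ℝ) / (n : ℝ) ^ m := rfl
    rw [h5]
    have h6 : (((1 : ℚ)) : ℝ) / ((1 : ℕ) : ℝ) ^ m = 1 := by simp
    rw [h6] at h1
    linarith
  · have h1 : hh c = hh (fun p => if p.Prime then c p else 0) := by
      refine hh_congr fun p hp => ?_
      rw [if_pos hp]
    have h2 : rho c m = rho (fun p => if p.Prime then c p else 0) m := by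
      unfold rho
      rw [h1]
    have h3 := h m hmM (fun p => if p.Prime then c p else 0) (fun _ => 0) (by
      intro p hpN
      show (if p.Prime then c p else 0) = 0
      split_ifs with h4
      · exact hc p h4 hpN
      · rfl)
    rw [rho_zero] at h3
    rw [h2]
    exact (le_abs_self _).trans h3

end Pool.Agent.Work.MP_f1a024_nt.NE
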