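import Pool.Agent.Work.MP_f1a024_nt.NE.Stmts

/-!
# Block NE, item EP: the Euler product of `rho`
-/

set_option autoImplicit false

namespace Pool.Agent.Work.MP_f1a024_nt.NE

namespace IEP

theorem hh_pow (c : ℕ → Fin 3) {p : ℕ} (hp : p.Prime) (k : ℕ) :
    hh c (p ^ (k + 1)) = ((c p : ℕ) : ℚ) := by
  have h : hh c (p ^ (k + 1)) = if p ^ (k + 1) = 0 then 0 else
      ∏ q ∈ (p ^ (k + 1)).primeFactors, ((c q : ℕ) : ℚ) := rfl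
  rw [h, if_neg (pow_ne_zero _ hp.ne_zero), Nat.primeFactors_prime_pow (Nat.succ_ne_zero k) hp,
    Finset.prod_singleton]

theorem factor (c : ℕ → Fin 3) {m : ℕ} (hm : 3 ≤ m) (h1 : hh c 1 = 1) {p : ℕ} (hp : p.Prime) :
    ∑' e : ℕ, ((hh c (p ^ e) : ℚ) : ℝ) / ((p ^ e : ℕ) : ℝ) ^ m =
      1 + ((c p : ℕ) : ℝ) / ((p : ℝ) ^ m - 1) := by
  have hp1 : (1 : ℝ) < p := by exact_mod_cast hp.one_lt
  have hpm : (1 : ℝ) < (p : ℝ) ^ m := one_lt_pow₀ hp1 (by omega)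
  have hr0 : (0 : ℝ) ≤ ((p : ℝ) ^ m)⁻¹ := by positivity
  have hr1 : ((p : ℝ) ^ m)⁻¹ < 1 := inv_lt_one_of_one_lt₀ hpm
  have hg := (hasSum_geometric_of_lt_one hr0 hr1).mul_left (((c p : ℕ) : ℝ) * ((p : ℝ) ^ m)⁻¹)
  have e1 : ((c p : ℕ) : ℝ) * ((p : ℝ) ^ m)⁻¹ * (1 - ((p : ℝ) ^ m)⁻¹)⁻¹ =
      ((c p : ℕ) : ℝ) / ((p : ℝ) ^ m - 1) := by
    have h0 : (p : ℝ) ^ m ≠ 0 := by positivity
    have h2 : (p : ℝ) ^ m - 1 ≠ 0 := by linarith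
    have h3 : 1 - ((p : ℝ) ^ m)⁻¹ ≠ 0 := by linarith
    field_simp
  rw [e1] at hg
  have hk : (fun k : ℕ => ((hh c (p ^ (k + 1)) : ℚ) : ℝ) / ((p ^ (k + 1) : ℕ) : ℝ) ^ m) =
      fun k : ℕ => ((c p : ℕ) : ℝ) * ((p : ℝ) ^ m)⁻¹ * ((p : ℝ) ^ m)⁻¹ ^ k := by
    funext k
    rw [hh_pow c hp k]
    push_cast
    rw [div_eq_mul_inv, mul_assoc, ← pow_succ', ← pow_mul, mul_comm (k + 1) m, pow_mul, inv_pow]
  have hg' : HasSum (fun k : ℕ => ((hh c (p ^ (k + 1)) : ℚ) : ℝ) / ((p ^ (k + 1) : ℕ) : ℝ) ^ m)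
      (((c p : ℕ) : ℝ) / ((p : ℝ) ^ m - 1)) := by
    rw [hk]
    exact hg
  have h := (hasSum_nat_add_iff
    (f := fun e : ℕ => ((hh c (p ^ e) : ℚ) : ℝ) / ((p ^ e : ℕ) : ℝ) ^ m) 1).1 hg'
  rw [h.tsum_eq, Finset.sum_range_one, pow_zero, h1]
  simp only [Nat.cast_one, Rat.cast_one, one_pow, div_one]
  exact add_comm _ _

end IEP

open IEP in
theorem pr_EP (hH1 : StH1) : StEP := by
  intro c m hm
  obtain ⟨hmul, -, -, hb, hs⟩ := hH1 c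
  have h1 : hh c 1 = 1 := hmul.map_one
  have hf1 : (fun n : ℕ => ((hh c n : ℚ) : ℝ) / (n : ℝ) ^ m) 1 = 1 := by
    simp [h1]
  have hf0 : (fun n : ℕ => ((hh c n : ℚ) : ℝ) / (n : ℝ) ^ m) 0 = 0 := by simp
  have hfm : ∀ {a b : ℕ}, Nat.Coprime a b →
      (fun n : ℕ => ((hh c n : ℚ) : ℝ) / (n : ℝ) ^ m) (a * b) =
      (fun n : ℕ => ((hh c n : ℚ) : ℝ) / (n : ℝ) ^ m) a *
      (fun n : ℕ => ((hh c n : ℚ) : ℝ) / (n : ℝ) ^ m) b := by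
    intro a b hab
    beta_reduce
    rw [hmul.map_mul_of_coprime hab]
    push_cast
    rw [mul_pow, mul_div_mul_comm]
  have hsum : Summable (fun n : ℕ => ‖(fun n : ℕ => ((hh c n : ℚ) : ℝ) / (n : ℝ) ^ m) n‖) := by
    refine (hs m hm).congr fun n => ?_
    have h0 : (0 : ℝ) ≤ ((hh c n : ℚ) : ℝ) := by exact_mod_cast (hb n).1
    exact (Real.norm_of_nonneg (by positivity)).symm
  have key := EulerProduct.eulerProduct_hasProd hf1 hfm hsum hf0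
  have e : (fun p : Nat.Primes => ∑' e : ℕ,
      (fun n : ℕ => ((hh c n : ℚ) : ℝ) / (n : ℝ) ^ m) ((p : ℕ) ^ e)) =
      fun p : Nat.Primes => 1 + ((c p : ℕ) : ℝ) / (((p : ℕ) : ℝ) ^ m - 1) := by
    funext p
    exact factor c hm h1 p.2
  rw [e] at key
  exact key

end Pool.Agent.Work.MP_f1a024_nt.NE
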