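import Pool.Agent.Work.MP_f1a024_nt.NE.Stmts
import Pool.Agent.Work.MP_f1a024_nt.AH.Final

set_option autoImplicit false

/-!
# Item Far: polynomials at the values for a function with infinite support
-/

namespace Pool.Agent.Work.MP_f1a024_nt.NE

open Pool.Agent.Work.MP_f1a024_nt.AH (PG IsP val Ind)
open Filter Topology

namespace IFar

theorem inf (hH1 : StH1) (c : ℕ → Fin 3) (hc : InfS c) :
    {q : ℕ | q.Prime ∧ hh c q ≠ 0}.Infinite := by
  refine hc.mono fun p hp => ⟨hp.1, ?_⟩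
  rw [(hH1 c).2.2.1 p hp.1]
  have h : ((c p : Fin 3) : ℕ) ≠ 0 := by
    intro h0
    exact hp.2 (Fin.ext h0)
  exact_mod_cast h

theorem ev_eq (c : ℕ → Fin 3) (d m : ℕ) (P : Polynomial ℤ) (hd : P.natDegree ≤ d) :
    ev P (rho c m) = ∑ i : Fin (d + 1), ((P.coeff (i : ℕ) : ℤ) : ℝ) * rho c m ^ (i : ℕ) := by
  unfold ev
  rw [Polynomial.eval_map, Polynomial.eval₂_eq_sum_range' (Int.castRingHom ℝ)
    (n := d + 1) (Nat.lt_succ_of_le hd), Finset.sum_range]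
  rfl

end IFar

theorem pr_Far (hH1 : StH1) (hInd : StInd) : StFar := by
  intro c hc d B hB
  obtain ⟨hmul, hPG, -⟩ := hH1 c
  obtain ⟨θ₀, M₀, hθ₀, H⟩ := AH.d9 (Fin (d + 1)) (fun i => hh c ^ (i : ℕ))
    (fun i => AH.ID12.PG_pow AH.prfD1 (hh c) hPG i) (hInd (hh c) hmul (IFar.inf hH1 c hc) d) B hB
  obtain ⟨M₁, hM₁⟩ := AH.ID12.val_pow_unif AH.prfD1 AH.prfD2 (hh c) hPG d
  refine ⟨θ₀, max M₀ M₁, hθ₀, fun m hm P hP => ?_⟩
  have hm0 : M₀ ≤ m := le_trans (le_max_left _ _) hm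
  have hm1 : M₁ ≤ m := le_trans (le_max_right _ _) hm
  have ha : (fun i : Fin (d + 1) => P.coeff (i : ℕ)) ≠ 0 := by
    intro h
    have h2 := congrFun h ⟨P.natDegree, Nat.lt_succ_of_le hP.deg⟩
    simp only [Pi.zero_apply] at h2
    exact hP.ne (Polynomial.leadingCoeff_eq_zero.1 h2)
  have key := H m hm0 _ ha fun i => hP.coe i
  rw [IFar.ev_eq c d m P hP.deg]
  refine key.trans (le_of_eq ?_)
  congr 1
  refine Finset.sum_congr rfl fun i _ => ?_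
  rw [hM₁ m hm1 i (Nat.lt_succ_iff.1 i.2)]
  rfl

end Pool.Agent.Work.MP_f1a024_nt.NE
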