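import Pool.Agent.Work.MP_f1a024_nt.NE.Stmts

set_option autoImplicit false

/-!
# MP_f1a024 NE, item Fin: functions with finite support on the primes
-/

namespace Pool.Agent.Work.MP_f1a024_nt.NE

open Pool.Agent.Work.MP_f1a024_nt.AH (PG IsP val Ind)
open Filter Topology

namespace IFin

theorem two_le_pow (p : Nat.Primes) (m : ℕ) (hm : 3 ≤ m) : 2 ≤ (p : ℕ) ^ m := by
  have h1 : 2 ≤ (p : ℕ) := p.2.two_le
  calc 2 ≤ (p : ℕ) := h1
    _ = (p : ℕ) ^ 1 := (pow_one _).symm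
    _ ≤ (p : ℕ) ^ m := Nat.pow_le_pow_right (by omega) (by omega)

theorem factor (c : ℕ → Fin 3) (p : Nat.Primes) (m : ℕ) (hm : 3 ≤ m) :
    (1 : ℝ) + ((c p : ℕ) : ℝ) / (((p : ℕ) : ℝ) ^ m - 1) =
      (((p : ℕ) ^ m - 1 + (c p : ℕ) : ℕ) : ℝ) / (((p : ℕ) ^ m - 1 : ℕ) : ℝ) := by
  have h2 := two_le_pow p m hm
  have h3 : (((p : ℕ) ^ m - 1 : ℕ) : ℝ) = ((p : ℕ) : ℝ) ^ m - 1 := by
    rw [Nat.cast_sub (by omega), Nat.cast_pow, Nat.cast_one]
  have h4 : (0 : ℝ) < ((p : ℕ) : ℝ) ^ m - 1 := by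
    rw [← h3]
    exact_mod_cast (by omega : 0 < (p : ℕ) ^ m - 1)
  rw [Nat.cast_add, h3, add_div, div_self h4.ne']

end IFin

theorem pr_Fin (hEP : StEP) : StFin := by
  intro c hc
  have hfin : {p : ℕ | p.Prime ∧ c p ≠ 0}.Finite := Set.not_infinite.1 hc
  set S : Finset Nat.Primes := hfin.toFinset.subtype Nat.Prime with hS
  have hmem : ∀ p : Nat.Primes, p ∉ S → c p = 0 := by
    intro p hp
    by_contra h
    refine hp ?_
    exact Finset.mem_subtype.2 ((Set.Finite.mem_toFinset _).2 ⟨p.2, h⟩)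
  refine ⟨∏ p ∈ S, ((p : ℕ) + 1), Finset.prod_pos fun p _ => Nat.succ_pos _, fun m hm => ?_⟩
  refine ⟨∏ p ∈ S, ((p : ℕ) ^ m - 1 + (c p : ℕ)), ∏ p ∈ S, ((p : ℕ) ^ m - 1), ?_, ?_, ?_, ?_, ?_⟩
  · refine Finset.prod_pos fun p _ => ?_
    have := IFin.two_le_pow p m hm
    omega
  · refine Finset.prod_pos fun p _ => ?_
    have := IFin.two_le_pow p m hm
    omega
  · rw [← Finset.prod_pow]
    refine Finset.prod_le_prod' fun p _ => ?_
    have h1 := IFin.two_le_pow p m hm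
    have h2 : (p : ℕ) ^ m < ((p : ℕ) + 1) ^ m := Nat.pow_lt_pow_left (Nat.lt_succ_self _) (by omega)
    have h3 : (c p : ℕ) < 3 := (c p).2
    omega
  · rw [← Finset.prod_pow]
    refine Finset.prod_le_prod' fun p _ => ?_
    have h1 := IFin.two_le_pow p m hm
    have h2 : (p : ℕ) ^ m < ((p : ℕ) + 1) ^ m := Nat.pow_lt_pow_left (Nat.lt_succ_self _) (by omega)
    omega
  · have h1 := hEP c m hm
    have h2 : HasProd (fun p : Nat.Primes => 1 + ((c p : ℕ) : ℝ) / (((p : ℕ) : ℝ) ^ m - 1))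
        (∏ p ∈ S, (1 + ((c p : ℕ) : ℝ) / (((p : ℕ) : ℝ) ^ m - 1))) := by
      refine hasProd_prod_of_ne_finset_one fun p hp => ?_
      rw [hmem p hp]
      simp
    rw [h1.unique h2, Nat.cast_prod, Nat.cast_prod, ← Finset.prod_div_distrib]
    exact Finset.prod_congr rfl fun p _ => IFin.factor c p m hm

end Pool.Agent.Work.MP_f1a024_nt.NE
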