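import Pool.Agent.Work.MP_f1a024_nt.NE.Stmts

set_option autoImplicit false

/-!
# MP_f1a024 NE, item Gs: Gauss sums of odd primitive quadratic characters
-/

namespace Pool.Agent.Work.MP_f1a024_nt.NE

namespace IGs

theorem shift (q : ℕ) [NeZero q] (χ : DirichletCharacter ℂ q) (hχ : Im q χ) (k : ZMod q) :
    ∑ a : ZMod q, χ a * ZMod.stdAddChar (a * k) =
      χ k * gaussSum χ (ZMod.stdAddChar (N := q)) := by
  have h1 := gaussSum_mulShift_of_isPrimitive (ZMod.stdAddChar (N := q)) hχ.prim k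
  rw [hχ.quad.inv] at h1
  rw [← h1, gaussSum]
  refine Finset.sum_congr rfl fun a _ => ?_
  rw [AddChar.mulShift_apply, mul_comm k a]

/-- the sum of the squares of the values -/
theorem ne (q : ℕ) [NeZero q] (χ : DirichletCharacter ℂ q) (hχ : Im q χ) :
    ∑ k : ZMod q, χ k * χ k ≠ 0 := by
  intro h
  have h1 : (∑ k : ZMod q, χ k * χ k).re = 0 := by rw [h, Complex.zero_re]
  rw [Complex.re_sum] at h1
  have h2 : ∀ k : ZMod q, 0 ≤ (χ k * χ k).re := by
    intro k
    rcases hχ.quad k with h | h | h <;> rw [h] <;> norm_num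
  have h3 := (Finset.sum_eq_zero_iff_of_nonneg (fun k _ => h2 k)).1 h1 1 (Finset.mem_univ _)
  rw [map_one] at h3
  norm_num at h3

end IGs

open IGs in
theorem pr_Gs : StGs := by
  classical
  intro q _ χ hχ
  set τ := gaussSum χ (ZMod.stdAddChar (N := q)) with hτ
  have hS := shift q χ hχ
  refine ⟨τ, ?_, hS⟩
  have hN := ne q χ hχ
  have hodd : ∀ k : ZMod q, χ (-k) = -χ k := by
    intro k
    have h : χ (-1) = -1 := hχ.odd
    rw [← neg_one_mul, map_mul, h, neg_one_mul]
  -- first evaluation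
  have e1 : ∑ k : ZMod q, (∑ a : ZMod q, χ a * ZMod.stdAddChar (a * k)) *
      (∑ b : ZMod q, χ b * ZMod.stdAddChar (b * -k)) =
      -(τ ^ 2) * ∑ k : ZMod q, χ k * χ k := by
    rw [Finset.mul_sum]
    refine Finset.sum_congr rfl fun k _ => ?_
    rw [hS k, hS (-k), hodd]
    ring
  -- second evaluation
  have e2 : ∑ k : ZMod q, (∑ a : ZMod q, χ a * ZMod.stdAddChar (a * k)) *
      (∑ b : ZMod q, χ b * ZMod.stdAddChar (b * -k)) =
      (q : ℂ) * ∑ k : ZMod q, χ k * χ k := by
    have h1 : ∀ k : ZMod q, (∑ a : ZMod q, χ a * ZMod.stdAddChar (a * k)) *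
        (∑ b : ZMod q, χ b * ZMod.stdAddChar (b * -k)) =
        ∑ a : ZMod q, ∑ b : ZMod q, χ a * χ b * ZMod.stdAddChar (k * (a - b)) := by
      intro k
      rw [Finset.sum_mul_sum]
      refine Finset.sum_congr rfl fun a _ => Finset.sum_congr rfl fun b _ => ?_
      have h2 : (ZMod.stdAddChar (k * (a - b)) : ℂ) =
          ZMod.stdAddChar (a * k) * ZMod.stdAddChar (b * -k) := by
        rw [← AddChar.map_add_eq_mul]
        congr 1
        ring
      rw [h2]
      ring
    simp only [h1]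
    rw [Finset.sum_comm]
    have h3 : ∀ a : ZMod q, ∑ k : ZMod q, ∑ b : ZMod q, χ a * χ b *
        (ZMod.stdAddChar (k * (a - b)) : ℂ) = (q : ℂ) * (χ a * χ a) := by
      intro a
      rw [Finset.sum_comm]
      have h4 : ∀ b : ZMod q, ∑ k : ZMod q, χ a * χ b * (ZMod.stdAddChar (k * (a - b)) : ℂ) =
          if b = a then (q : ℂ) * (χ a * χ a) else 0 := by
        intro b
        rw [← Finset.mul_sum, AddChar.sum_mulShift (a - b) (ZMod.isPrimitive_stdAddChar q)]
        by_cases hab : b = a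
        · rw [if_pos hab, hab, sub_self, if_pos rfl, ZMod.card]
          ring
        · rw [if_neg hab, if_neg (fun h => hab (sub_eq_zero.1 h).symm)]
          simp
      rw [Finset.sum_congr rfl (fun b _ => h4 b), Finset.sum_ite_eq']
      simp
    rw [Finset.sum_congr rfl (fun a _ => h3 a), ← Finset.mul_sum]
  have h5 : -(τ ^ 2) = (q : ℂ) := mul_right_cancel₀ hN (e1.symm.trans e2)
  rw [← h5, neg_neg]

end Pool.Agent.Work.MP_f1a024_nt.NE
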