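import Pool.Agent.Work.MP_f1a024_nt.NE.Stmts

set_option autoImplicit false

/-!
# Block NE, item H1
-/

namespace Pool.Agent.Work.MP_f1a024_nt.NE

open Pool.Agent.Work.MP_f1a024_nt.AH (PG IsP val Ind)
open Filter Topology

namespace IH1

lemma hh_apply (c : ℕ → Fin 3) {n : ℕ} (hn : n ≠ 0) :
    hh c n = ∏ p ∈ n.primeFactors, ((c p : ℕ) : ℚ) := by
  simp [hh, hn]

lemma nonneg (c : ℕ → Fin 3) (n : ℕ) : 0 ≤ hh c n := by
  rcases eq_or_ne n 0 with rfl | hn
  · simp
  · rw [hh_apply c hn]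
    exact Finset.prod_nonneg fun p _ => Nat.cast_nonneg _

lemma le (c : ℕ → Fin 3) (n : ℕ) : hh c n ≤ n := by
  rcases eq_or_ne n 0 with rfl | hn
  · simp
  · rw [hh_apply c hn]
    have h1 : ∏ p ∈ n.primeFactors, ((c p : ℕ) : ℚ) ≤ ∏ p ∈ n.primeFactors, (p : ℚ) := by
      refine Finset.prod_le_prod (fun p _ => Nat.cast_nonneg _) fun p hp => ?_
      have h2 := (Nat.prime_of_mem_primeFactors hp).two_le
      have h3 : (c p : ℕ) ≤ 2 := by
        have := (c p).isLt
        omega
      exact_mod_cast h3.trans h2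
    refine h1.trans ?_
    have h4 : ∏ p ∈ n.primeFactors, p ≤ n :=
      Nat.le_of_dvd (Nat.pos_of_ne_zero hn) (Nat.prod_primeFactors_dvd n)
    have h5 : ((∏ p ∈ n.primeFactors, p : ℕ) : ℚ) ≤ n := by exact_mod_cast h4
    rwa [Nat.cast_prod] at h5

lemma mult (c : ℕ → Fin 3) : (hh c).IsMultiplicative := by
  refine ⟨by rw [hh_apply c one_ne_zero]; simp, ?_⟩
  intro m n hmn
  rcases eq_or_ne m 0 with rfl | hm
  · simp
  rcases eq_or_ne n 0 with rfl | hn
  · simp
  rw [hh_apply c (mul_ne_zero hm hn), hh_apply c hm, hh_apply c hn,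
    Nat.Coprime.primeFactors_mul hmn, Finset.prod_union hmn.disjoint_primeFactors]

end IH1

open IH1 in
theorem pr_H1 : StH1 := by
  intro c
  refine ⟨mult c, ?_, ?_, fun n => ⟨nonneg c n, le c n⟩, ?_⟩
  · refine ⟨1, 1, fun n => ?_⟩
    rw [abs_of_nonneg (by exact_mod_cast nonneg c n)]
    simpa using (show ((hh c n : ℚ) : ℝ) ≤ n by exact_mod_cast le c n)
  · intro p hp
    rw [hh_apply c hp.ne_zero, Nat.Prime.primeFactors hp, Finset.prod_singleton]
  · intro m hm
    refine Summable.of_nonneg_of_le (fun n => ?_) (fun n => ?_)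
      (Real.summable_one_div_nat_pow.2 (show 1 < m - 1 by omega))
    · have := nonneg c n
      have h2 : (0 : ℝ) ≤ ((hh c n : ℚ) : ℝ) := by exact_mod_cast this
      positivity
    · rcases eq_or_ne n 0 with rfl | hn
      · simp
      · have h1 : ((hh c n : ℚ) : ℝ) ≤ n := by exact_mod_cast le c n
        have h2 : (0 : ℝ) < n := by exact_mod_cast Nat.pos_of_ne_zero hn
        rw [div_le_div_iff₀ (by positivity) (by positivity), one_mul]
        have h3 : (n : ℝ) ^ m = n * (n : ℝ) ^ (m - 1) := by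
          rw [← pow_succ', show m - 1 + 1 = m by omega]
        rw [h3]
        exact mul_le_mul_of_nonneg_right h1 (by positivity)

end Pool.Agent.Work.MP_f1a024_nt.NE
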