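import Pool.Agent.Work.MP_f1a024_nt.NE.Stmts
import Pool.Agent.Work.MP_f1a024_nt.AH.Final

set_option autoImplicit false

/-!
# MP_f1a024 NE, item Ind: Dirichlet powers of a multiplicative function which is not zero at
infinitely many primes are independent over Dirichlet polynomials
-/

namespace Pool.Agent.Work.MP_f1a024_nt.NE

open Pool.Agent.Work.MP_f1a024_nt.AH (PG IsP val Ind)

namespace IInd

/-- elimination over a finite set of indices, primes of an infinite set -/
theorem elim {ι : Type} [DecidableEq ι] (v : ι → ℕ → ℚ) (S : Set ℕ) (hS : S.Infinite)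
    (hv : ∀ i j, i ≠ j → ∀ q ∈ S, v i q ≠ v j q) (A : Finset ι) :
    ∀ (c : ι → ℚ) (X : ℕ), (∀ Q : Finset ℕ, (∀ q ∈ Q, q ∈ S ∧ X < q) →
      ∑ i ∈ A, c i * ∏ q ∈ Q, v i q = 0) → ∀ i ∈ A, c i = 0 := by
  induction A using Finset.induction_on with
  | empty =>
    intro c X _ i hi
    exact absurd hi (Finset.notMem_empty i)
  | insert i1 A hi1 ih =>
    intro c X hQ
    obtain ⟨q0, hq0, hX⟩ := hS.exists_gt X
    have hne : ∀ i ∈ A, v i q0 ≠ v i1 q0 := fun i hi =>
      hv i i1 (fun h => hi1 (h ▸ hi)) q0 hq0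
    have h1 : ∀ i ∈ A, c i * (v i q0 - v i1 q0) = 0 := by
      refine ih (fun i => c i * (v i q0 - v i1 q0)) q0 ?_
      intro Q hQ2
      have hq0Q : q0 ∉ Q := fun h => lt_irrefl _ (hQ2 q0 h).2
      have h2 := hQ Q fun q hq => ⟨(hQ2 q hq).1, hX.trans (hQ2 q hq).2⟩
      have h3 := hQ (insert q0 Q) (by
        intro q hq
        rcases Finset.mem_insert.1 hq with rfl | hq
        · exact ⟨hq0, hX⟩
        · exact ⟨(hQ2 q hq).1, hX.trans (hQ2 q hq).2⟩)
      rw [Finset.sum_insert hi1] at h2 h3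
      simp only [Finset.prod_insert hq0Q] at h3
      have h4 : ∑ i ∈ A, c i * (v i q0 - v i1 q0) * ∏ q ∈ Q, v i q =
          ∑ i ∈ A, c i * (v i q0 * ∏ q ∈ Q, v i q) - v i1 q0 * ∑ i ∈ A, c i * ∏ q ∈ Q, v i q := by
        rw [Finset.mul_sum, ← Finset.sum_sub_distrib]
        exact Finset.sum_congr rfl fun i _ => by ring
      rw [h4]
      linear_combination h3 - v i1 q0 * h2
    have h2 : ∀ i ∈ A, c i = 0 := fun i hi =>
      (mul_eq_zero.1 (h1 i hi)).resolve_right (sub_ne_zero.2 (hne i hi))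
    have h3 := hQ ∅ (by simp)
    rw [Finset.sum_insert hi1, Finset.sum_eq_zero (fun i hi => by rw [h2 i hi, zero_mul])] at h3
    simp only [Finset.prod_empty, mul_one, add_zero] at h3
    intro i hi
    rcases Finset.mem_insert.1 hi with rfl | hi
    · exact h3
    · exact h2 i hi

theorem mulpow (h : ArithmeticFunction ℚ) (hh : h.IsMultiplicative) (i : ℕ) :
    (h ^ i).IsMultiplicative := by
  induction i with
  | zero => rw [pow_zero]; exact ArithmeticFunction.isMultiplicative_one
  | succ i ih => rw [pow_succ]; exact ih.mul hh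

theorem mul_prime (f g : ArithmeticFunction ℚ) (q : ℕ) (hq : q.Prime) :
    (f * g) q = f 1 * g q + f q * g 1 := by
  rw [ArithmeticFunction.mul_apply, Nat.sum_divisorsAntidiagonal (fun a b => f a * g b),
    Nat.Prime.divisors hq, Finset.sum_pair hq.one_lt.ne]
  simp [Nat.div_self hq.pos]

theorem pow_prime (h : ArithmeticFunction ℚ) (hh : h.IsMultiplicative) (q : ℕ) (hq : q.Prime)
    (i : ℕ) : (h ^ i) q = i * h q := by
  induction i with
  | zero =>
    rw [pow_zero, ArithmeticFunction.one_apply_ne hq.one_lt.ne']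
    simp
  | succ i ih =>
    rw [pow_succ, mul_prime _ _ q hq, ih, (mulpow h hh i).map_one, hh.map_one]
    push_cast
    ring

end IInd

open IInd in
theorem pr_Ind (h5 : AH.D5) : StInd := by
  intro h hh hS d g hg hsum
  have hfin : (⋃ i : Fin (d + 1), {n | g i n ≠ 0}).Finite := Set.finite_iUnion fun i => hg i
  obtain ⟨N, hN⟩ := hfin.bddAbove
  have hN2 : ∀ i a, g i a ≠ 0 → a ≤ N := fun i a ha => hN (Set.mem_iUnion.2 ⟨i, ha⟩)
  have hzero : ∀ i, g i * h ^ (i : ℕ) = 0 := by
    have h1 : ∀ n : ℕ, 0 < n → ∀ i ∈ (Finset.univ : Finset (Fin (d + 1))),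
        (g i * h ^ (i : ℕ)) n = 0 := by
      intro n hn
      refine elim (fun (i : Fin (d + 1)) q => (h ^ (i : ℕ)) q) {q : ℕ | q.Prime ∧ h q ≠ 0} hS ?_ Finset.univ
        (fun i => (g i * h ^ (i : ℕ)) n) (max n N) ?_
      · intro i j hij q hq hEq
        simp only [pow_prime h hh q hq.1] at hEq
        exact hij (Fin.ext (by exact_mod_cast mul_right_cancel₀ hq.2 hEq))
      intro Q hQ
      have h2 := congrArg (fun F : ArithmeticFunction ℚ => F (n * ∏ q ∈ Q, q)) hsum
      simp only [AH.ID11.sum_apply, ArithmeticFunction.zero_apply] at h2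
      rw [← h2]
      refine Finset.sum_congr rfl fun i _ => ?_
      exact (AH.ID13.key_prod (g i) (h ^ (i : ℕ)) (mulpow h hh i) n (max n N) hn (le_max_left _ _)
        (fun a ha => (hN2 i a ha).trans (le_max_right _ _)) Q
        (fun q hq => ⟨(hQ q hq).1.1, (hQ q hq).2⟩)).symm
    intro i
    ext n
    rcases Nat.eq_zero_or_pos n with rfl | hn
    · simp
    · rw [h1 n hn i (Finset.mem_univ i), ArithmeticFunction.zero_apply]
  intro i
  rcases h5 _ _ (hzero i) with h1 | h1
  · exact h1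
  · exfalso
    have h2 : (h ^ (i : ℕ)) 1 = 1 := (mulpow h hh i).map_one
    rw [h1, ArithmeticFunction.zero_apply] at h2
    exact zero_ne_one h2

end Pool.Agent.Work.MP_f1a024_nt.NE
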