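import Pool.Agent.Work.MP_f1a024_nt.NE.Stmts

set_option autoImplicit false

/-!
# Item Ln: the value `L(n, χ)` for odd `n`
-/

namespace Pool.Agent.Work.MP_f1a024_nt.NE

open Filter Topology

namespace ILn

theorem eval_bern (n q v : ℕ) :
    (Polynomial.map (algebraMap ℚ ℝ) (Polynomial.bernoulli n)).eval ((v : ℝ) / q) =
      (((Polynomial.bernoulli n).eval ((v : ℚ) / q) : ℚ) : ℝ) := by
  have e1 : ((v : ℝ) / q) = algebraMap ℚ ℝ ((v : ℚ) / q) := by simp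
  rw [e1, Polynomial.eval_map, Polynomial.eval₂_at_apply]
  simp

theorem one (q : ℕ) [NeZero q] (k : ℕ) (hk : k ≠ 0) (z : ℂ) (a : ZMod q) :
    HasSum (fun m : ℕ => z * ((1 / (m : ℝ) ^ (2 * k + 1) *
        Real.sin (2 * Real.pi * m * ((a.val : ℝ) / q)) : ℝ) : ℂ))
      (z * (((-1 : ℝ) ^ (k + 1) * (2 * Real.pi) ^ (2 * k + 1) / 2 / (2 * k + 1).factorial *
        (((Polynomial.bernoulli (2 * k + 1)).eval ((a.val : ℚ) / q) : ℚ) : ℝ) : ℝ) : ℂ)) := by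
  have hq : (0 : ℝ) < q := by exact_mod_cast NeZero.pos q
  have hx : ((a.val : ℝ) / q) ∈ Set.Icc (0 : ℝ) 1 :=
    ⟨by positivity, by rw [div_le_one hq]; exact_mod_cast (ZMod.val_lt a).le⟩
  have h := hasSum_one_div_nat_pow_mul_sin hk hx
  rw [eval_bern] at h
  exact (Complex.hasSum_ofReal.2 h).mul_left z

end ILn

/-- Ln. -/
theorem pr_Ln (hSn : StSn) : StLn := by
  intro q _ χ hχ n hn h3 L hL
  obtain ⟨k, rfl⟩ := hn
  have hk : k ≠ 0 := by omega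
  obtain ⟨s, hs, hS⟩ := hSn q χ hχ
  have h2 := hasSum_sum (fun (a : ZMod q) (_ : a ∈ Finset.univ) => ILn.one q k hk (χ a) a)
  have h4 : (fun m : ℕ => ∑ a : ZMod q, χ a * ((1 / (m : ℝ) ^ (2 * k + 1) *
        Real.sin (2 * Real.pi * m * ((a.val : ℝ) / q)) : ℝ) : ℂ)) =
      fun m : ℕ => s * (χ (m : ZMod q) / (m : ℂ) ^ (2 * k + 1)) := by
    funext m
    have h5 : ∀ a : ZMod q, χ a * ((1 / (m : ℝ) ^ (2 * k + 1) *
        Real.sin (2 * Real.pi * m * ((a.val : ℝ) / q)) : ℝ) : ℂ) =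
        1 / (m : ℂ) ^ (2 * k + 1) *
          (χ a * ((Real.sin (2 * Real.pi * m * ((a.val : ℝ) / q)) : ℝ) : ℂ)) := by
      intro a
      push_cast
      ring
    rw [Finset.sum_congr rfl fun a _ => h5 a, ← Finset.mul_sum, hS m]
    ring
  rw [h4] at h2
  have h6 := (hL.mul_left s).unique h2
  have h7 : ∑ a : ZMod q, χ a * (((-1 : ℝ) ^ (k + 1) * (2 * Real.pi) ^ (2 * k + 1) / 2 /
        (2 * k + 1).factorial *
        (((Polynomial.bernoulli (2 * k + 1)).eval ((a.val : ℚ) / q) : ℚ) : ℝ) : ℝ) : ℂ) =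
      (-1 : ℂ) ^ (k + 1) * (2 * Real.pi : ℂ) ^ (2 * k + 1) / 2 / (2 * k + 1).factorial *
        bb (2 * k + 1) q χ := by
    rw [bb, Finset.mul_sum]
    refine Finset.sum_congr rfl fun a _ => ?_
    push_cast
    ring
  rw [h7] at h6
  have hf : ((2 * k + 1).factorial : ℂ) ≠ 0 := by exact_mod_cast Nat.factorial_ne_zero _
  have h8 : (s * L) ^ 2 = ((2 * Real.pi : ℂ) ^ (2 * k + 1)) ^ 2 / 4 /
      ((2 * k + 1).factorial : ℂ) ^ 2 * bb (2 * k + 1) q χ ^ 2 := by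
    rw [h6]
    have h9 : ((-1 : ℂ) ^ (k + 1)) ^ 2 = 1 := by
      rw [← pow_mul, mul_comm, pow_mul]; simp
    calc ((-1 : ℂ) ^ (k + 1) * (2 * Real.pi : ℂ) ^ (2 * k + 1) / 2 / (2 * k + 1).factorial *
          bb (2 * k + 1) q χ) ^ 2 = ((-1 : ℂ) ^ (k + 1)) ^ 2 *
          (((2 * Real.pi : ℂ) ^ (2 * k + 1)) ^ 2 / 4 / ((2 * k + 1).factorial : ℂ) ^ 2 *
          bb (2 * k + 1) q χ ^ 2) := by ring
      _ = _ := by rw [h9, one_mul]
  rw [mul_pow, hs] at h8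
  have h10 : (2 * Real.pi : ℂ) ^ (2 * (2 * k + 1)) = ((2 * Real.pi : ℂ) ^ (2 * k + 1)) ^ 2 := by
    rw [← pow_mul, Nat.mul_comm 2 (2 * k + 1)]
  rw [h10]
  calc 4 * ((2 * k + 1).factorial : ℂ) ^ 2 * q * L ^ 2 =
      4 * ((2 * k + 1).factorial : ℂ) ^ 2 * ((q : ℂ) * L ^ 2) := by ring
    _ = 4 * ((2 * k + 1).factorial : ℂ) ^ 2 * (((2 * Real.pi : ℂ) ^ (2 * k + 1)) ^ 2 / 4 /
      ((2 * k + 1).factorial : ℂ) ^ 2 * bb (2 * k + 1) q χ ^ 2) := by rw [h8]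
    _ = _ := by field_simp

end Pool.Agent.Work.MP_f1a024_nt.NE
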