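import Pool.Agent.Work.MP_f1a024_nt.NE.Stmts

set_option autoImplicit false

/-!
# NE, item Nb: neighbours of a function with infinite support
-/

namespace Pool.Agent.Work.MP_f1a024_nt.NE

theorem pr_Nb (hTl : StTl) (hBd : StBd) (hPl : StPl) (hFar : StFar) : StNb := by
  intro c hc d B hB
  obtain ⟨θ, M1, hθ, hM1⟩ := hFar c hc d B hB
  obtain ⟨N0, hN0⟩ := exists_nat_gt (2 * B / θ)
  have hBpos : 0 < B := by linarith
  have hN0pos : (0 : ℝ) < N0 := lt_trans (by positivity) hN0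
  have hNpos : 0 < N0 := by exact_mod_cast hN0pos
  obtain ⟨C, M2, hC, hM2⟩ := hTl N0 hNpos
  obtain ⟨M3, hM3⟩ := hBd
  obtain ⟨M4, hM4⟩ := pow_unbounded_of_one_lt (((d : ℝ) + 1) ^ 2 * 2 ^ d * C) (one_lt_two (α := ℝ))
  refine ⟨N0, max (max M1 M2) (max M3 M4), ?_⟩
  intro c' hcc m hm P hP h0
  have hm1 : M1 ≤ m := le_trans (le_trans (le_max_left _ _) (le_max_left _ _)) hm
  have hm2 : M2 ≤ m := le_trans (le_trans (le_max_right _ _) (le_max_left _ _)) hm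
  have hm3 : M3 ≤ m := le_trans (le_trans (le_max_left _ _) (le_max_right _ _)) hm
  have hm4 : M4 ≤ m := le_trans (le_trans (le_max_right _ _) (le_max_right _ _)) hm
  have h1 := hM1 m hm1 P hP
  have h2 := hM2 m hm2 c c' hcc
  have b1 := hM3 m hm3 c
  have b2 := hM3 m hm3 c'
  have h3 := hPl d (B ^ m) P hP (rho c m) (rho c' m) (by linarith [b1.1]) b1.2 (by linarith [b2.1]) b2.2
  rw [h0, sub_zero] at h3
  have hBm : 0 ≤ B ^ m := by positivity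
  have h4 : θ ^ m ≤ ((d : ℝ) + 1) ^ 2 * 2 ^ d * C * (B / N0) ^ m := by
    calc θ ^ m ≤ |ev P (rho c m)| := h1
      _ ≤ ((d : ℝ) + 1) ^ 2 * 2 ^ d * B ^ m * |rho c m - rho c' m| := h3
      _ ≤ ((d : ℝ) + 1) ^ 2 * 2 ^ d * B ^ m * (C * (1 / (N0 : ℝ)) ^ m) := by gcongr
      _ = ((d : ℝ) + 1) ^ 2 * 2 ^ d * C * (B / N0) ^ m := by
        rw [div_pow, div_pow, one_pow]
        ring
  have h5 : B / N0 ≤ θ / 2 := by
    rw [div_lt_iff₀ hθ] at hN0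
    rw [div_le_div_iff₀ hN0pos two_pos]
    nlinarith
  have hK : 0 ≤ ((d : ℝ) + 1) ^ 2 * 2 ^ d * C := by positivity
  have h6 : θ ^ m ≤ ((d : ℝ) + 1) ^ 2 * 2 ^ d * C * (θ / 2) ^ m :=
    h4.trans (mul_le_mul_of_nonneg_left (pow_le_pow_left₀ (by positivity) h5 m) hK)
  have h7 : ((d : ℝ) + 1) ^ 2 * 2 ^ d * C < 2 ^ m :=
    lt_of_lt_of_le hM4 (pow_le_pow_right₀ one_le_two hm4)
  have h8 : ((d : ℝ) + 1) ^ 2 * 2 ^ d * C * (θ / 2) ^ m < 2 ^ m * (θ / 2) ^ m :=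
    mul_lt_mul_of_pos_right h7 (by positivity)
  have h9 : (2 : ℝ) ^ m * (θ / 2) ^ m = θ ^ m := by
    rw [← mul_pow]
    congr 1
    ring
  linarith

end Pool.Agent.Work.MP_f1a024_nt.NE
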