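import Pool.Agent.Work.MP_f1a024_nt.NE.Stmts

set_option autoImplicit false

/-!
# MP_f1a024 NE, item Nf: neighbours of a function with finite support on the primes
-/

namespace Pool.Agent.Work.MP_f1a024_nt.NE

open Pool.Agent.Work.MP_f1a024_nt.AH (PG IsP val Ind)
open Filter Topology

namespace INf

theorem bound_prime (c : ℕ → Fin 3) (hc : ¬ InfS c) : ∃ N0 : ℕ, ∀ p : ℕ, p.Prime → N0 ≤ p → c p = 0 := by
  have hfin : {p : ℕ | p.Prime ∧ c p ≠ 0}.Finite := Set.not_infinite.mp hc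
  obtain ⟨K, hK⟩ := hfin.bddAbove
  refine ⟨K + 1, fun p hp hKp => ?_⟩
  by_contra hne
  have : p ≤ K := hK ⟨hp, hne⟩
  omega

theorem cut_inf (c : ℕ → Fin 3) (N : ℕ) (hc : InfS c) : InfS (cut N c) := by
  unfold InfS at hc ⊢
  have h1 : ({p : ℕ | p.Prime ∧ c p ≠ 0} \ (Finset.range N : Set ℕ)).Infinite :=
    hc.sdiff (Finset.finite_toSet _)
  refine h1.mono ?_
  rintro p ⟨⟨hp, hcp⟩, hpN⟩
  refine ⟨hp, ?_⟩
  have hN : ¬ p < N := by simpa using hpN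
  simp only [cut, if_neg hN]
  exact hcp

theorem arith (A d m N : ℕ) (B C ε : ℝ) (U V : ℕ) (hB : 1 ≤ B) (hC : 0 ≤ C)
    (hN : 2 * B * (A : ℝ) ^ (2 * d + 1) ≤ N) (hN0 : 0 < N) (hU : U ≤ A ^ m)
    (hV : V ≤ A ^ m) (hε0 : 0 < ε) (hε : ε ≤ C * (1 / (N : ℝ)) ^ m)
    (hm : C * ((d : ℝ) + 1) ^ 2 * 2 ^ d < 2 ^ m) :
    ε * (((d : ℝ) + 1) ^ 2 * 2 ^ d * B ^ m * (U : ℝ) ^ (d + 1) * (V : ℝ) ^ d) < 1 := by
  have hNr : (0 : ℝ) < N := by exact_mod_cast hN0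
  have hU' : (U : ℝ) ≤ (A : ℝ) ^ m := by exact_mod_cast hU
  have hV' : (V : ℝ) ≤ (A : ℝ) ^ m := by exact_mod_cast hV
  have h1 : (U : ℝ) ^ (d + 1) * (V : ℝ) ^ d ≤ ((A : ℝ) ^ (2 * d + 1)) ^ m := by
    calc (U : ℝ) ^ (d + 1) * (V : ℝ) ^ d ≤ ((A : ℝ) ^ m) ^ (d + 1) * ((A : ℝ) ^ m) ^ d := by
          gcongr
      _ = ((A : ℝ) ^ (2 * d + 1)) ^ m := by
          rw [← pow_add, ← pow_mul, ← pow_mul]
          congr 1
          ring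
  have h2 : (1 / (N : ℝ)) ^ m * (B ^ m * ((A : ℝ) ^ (2 * d + 1)) ^ m) ≤ (1 / 2 : ℝ) ^ m := by
    rw [← mul_pow, ← mul_pow]
    apply pow_le_pow_left₀ (by positivity)
    rw [one_div, inv_mul_le_iff₀ hNr]
    linarith
  have h3 : ε * (((d : ℝ) + 1) ^ 2 * 2 ^ d * B ^ m * (U : ℝ) ^ (d + 1) * (V : ℝ) ^ d) ≤
      C * ((d : ℝ) + 1) ^ 2 * 2 ^ d * ((1 / (N : ℝ)) ^ m * (B ^ m * ((A : ℝ) ^ (2 * d + 1)) ^ m)) := by
    calc ε * (((d : ℝ) + 1) ^ 2 * 2 ^ d * B ^ m * (U : ℝ) ^ (d + 1) * (V : ℝ) ^ d)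
        = ε * (((d : ℝ) + 1) ^ 2 * 2 ^ d * B ^ m * ((U : ℝ) ^ (d + 1) * (V : ℝ) ^ d)) := by ring
      _ ≤ (C * (1 / (N : ℝ)) ^ m) *
          (((d : ℝ) + 1) ^ 2 * 2 ^ d * B ^ m * ((A : ℝ) ^ (2 * d + 1)) ^ m) := by
          gcongr
      _ = C * ((d : ℝ) + 1) ^ 2 * 2 ^ d *
          ((1 / (N : ℝ)) ^ m * (B ^ m * ((A : ℝ) ^ (2 * d + 1)) ^ m)) := by ring
  have h4 : C * ((d : ℝ) + 1) ^ 2 * 2 ^ d *
      ((1 / (N : ℝ)) ^ m * (B ^ m * ((A : ℝ) ^ (2 * d + 1)) ^ m)) ≤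
      C * ((d : ℝ) + 1) ^ 2 * 2 ^ d * (1 / 2 : ℝ) ^ m :=
    mul_le_mul_of_nonneg_left h2 (by positivity)
  have h5 : C * ((d : ℝ) + 1) ^ 2 * 2 ^ d * (1 / 2 : ℝ) ^ m < 1 := by
    rw [one_div, inv_pow, ← div_eq_mul_inv, div_lt_one (by positivity)]
    exact hm
  linarith

end INf

theorem pr_Nf (hPr : StPr) (hCut : StCut) (hFin : StFin) (hTay : StTay) : StNf := by
  intro c hc d B hB
  obtain ⟨A, _, hA⟩ := hFin c hc
  obtain ⟨N0, hN0⟩ := INf.bound_prime c hc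
  obtain ⟨N1, hN1⟩ := exists_nat_ge (2 * B * (A : ℝ) ^ (2 * d + 1))
  set N : ℕ := max (max N0 N1) 1 with hNdef
  have hNpos : 0 < N := lt_of_lt_of_le one_pos (le_max_right _ _)
  have hNN0 : N0 ≤ N := le_trans (le_max_left _ _) (le_max_left _ _)
  have hNN1 : N1 ≤ N := le_trans (le_max_right _ _) (le_max_left _ _)
  have hNge : 2 * B * (A : ℝ) ^ (2 * d + 1) ≤ N := hN1.trans (by exact_mod_cast hNN1)
  obtain ⟨C, M1, hC, hM1⟩ := hCut N hNpos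
  obtain ⟨M2, hM2⟩ := exists_nat_ge (C * ((d : ℝ) + 1) ^ 2 * 2 ^ d)
  refine ⟨N, max (max M1 M2) 3, ?_⟩
  intro c' hc' hcc' m hm P hP
  have hm1 : M1 ≤ m := le_trans (le_trans (le_max_left _ _) (le_max_left _ _)) hm
  have hm2 : M2 ≤ m := le_trans (le_trans (le_max_right _ _) (le_max_left _ _)) hm
  have hm3 : 3 ≤ m := le_trans (le_max_right _ _) hm
  have hmul : rho c' m = rho c m * rho (cut N c') m := by
    apply hPr c (cut N c') c' _ m hm3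
    intro p hp
    by_cases hpN : p < N
    · right
      refine ⟨by simp only [cut, if_pos hpN], (hcc' p hpN).symm⟩
    · left
      refine ⟨hN0 p hp (by omega), by simp only [cut, if_neg hpN]⟩
  obtain ⟨h1, h2⟩ := hM1 m hm1 (cut N c') (INf.cut_inf c' N hc') (by
    intro p _ hpN
    simp only [cut, if_pos hpN])
  obtain ⟨U, V, hU0, hV0, hU, hV, hUV⟩ := hA m hm3
  have hbig : C * ((d : ℝ) + 1) ^ 2 * 2 ^ d < 2 ^ m := by
    have h3 : (M2 : ℝ) ≤ m := by exact_mod_cast hm2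
    have h4 : (m : ℝ) < 2 ^ m := by exact_mod_cast Nat.lt_two_pow_self
    linarith
  have hε := INf.arith A d m N B C (rho (cut N c') m - 1) U V hB hC hNge hNpos hU hV
    (by linarith) h2 hbig
  have h5 := hTay d (B ^ m) P (one_le_pow₀ hB) hP U V (rho (cut N c') m - 1) hU0 hV0
    (by linarith) hε
  rw [hmul, hUV]
  have h6 : 1 + (rho (cut N c') m - 1) = rho (cut N c') m := by ring
  rw [h6] at h5
  exact h5

end Pool.Agent.Work.MP_f1a024_nt.NE
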