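import Pool.Agent.Work.MP_f1a024_nt.NE.Stmts

set_option autoImplicit false

namespace Pool.Agent.Work.MP_f1a024_nt.NE

namespace IPl

theorem ev_eq {P : Polynomial ℤ} {d : ℕ} (hd : P.natDegree ≤ d) (x : ℝ) :
    ev P x = ∑ i ∈ Finset.range (d + 1), (P.coeff i : ℝ) * x ^ i := by
  unfold ev
  rw [Polynomial.eval_eq_sum_range' (n := d + 1)
    ((Polynomial.natDegree_map_le).trans_lt (Nat.lt_succ_of_le hd))]
  refine Finset.sum_congr rfl fun i _ => ?_
  rw [Polynomial.coeff_map]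
  simp

theorem pow_le {d i : ℕ} (hi : i ≤ d) {x y : ℝ} (hx : 0 ≤ x) (hx' : x ≤ 2) (hy : 0 ≤ y)
    (hy' : y ≤ 2) : |x ^ i - y ^ i| ≤ (d + 1) * 2 ^ d * |x - y| := by
  have h := abs_pow_sub_pow_le x y i
  have h0 : 0 ≤ |x - y| := abs_nonneg _
  have h1 : max |x| |y| ≤ 2 := by
    rw [abs_of_nonneg hx, abs_of_nonneg hy]
    exact max_le hx' hy'
  have h2 : max |x| |y| ^ (i - 1) ≤ 2 ^ d :=
    (pow_le_pow_left₀ (le_max_of_le_left (abs_nonneg _)) h1 _).trans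
      (pow_le_pow_right₀ (by norm_num) (by omega))
  have h3 : (i : ℝ) ≤ d + 1 := by
    have : (i : ℝ) ≤ d := by exact_mod_cast hi
    linarith
  calc |x ^ i - y ^ i| ≤ |x - y| * i * max |x| |y| ^ (i - 1) := h
    _ ≤ |x - y| * (d + 1) * 2 ^ d := by gcongr
    _ = (d + 1) * 2 ^ d * |x - y| := by ring

end IPl

theorem pr_Pl : StPl := by
  intro d b P hP x y hx hx' hy hy'
  have hb : 0 ≤ b := (abs_nonneg _).trans (hP.coe 0)
  rw [IPl.ev_eq hP.deg x, IPl.ev_eq hP.deg y, ← Finset.sum_sub_distrib]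
  calc |∑ i ∈ Finset.range (d + 1), ((P.coeff i : ℝ) * x ^ i - (P.coeff i : ℝ) * y ^ i)|
      ≤ ∑ i ∈ Finset.range (d + 1), |(P.coeff i : ℝ) * x ^ i - (P.coeff i : ℝ) * y ^ i| :=
        Finset.abs_sum_le_sum_abs _ _
    _ ≤ ∑ _i ∈ Finset.range (d + 1), b * ((d + 1) * 2 ^ d * |x - y|) := by
        refine Finset.sum_le_sum fun i hi => ?_
        rw [← mul_sub, abs_mul]
        have hi' : i ≤ d := Nat.lt_succ_iff.1 (Finset.mem_range.1 hi)
        exact mul_le_mul (hP.coe i) (IPl.pow_le hi' hx hx' hy hy') (abs_nonneg _) hb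
    _ = (d + 1) ^ 2 * 2 ^ d * b * |x - y| := by
        rw [Finset.sum_const, Finset.card_range, nsmul_eq_mul]
        push_cast
        ring

end Pool.Agent.Work.MP_f1a024_nt.NE
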