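import Pool.Agent.Work.MP_f1a024_nt.NE.Stmts

set_option autoImplicit false

/-!
# MP_f1a024 NE, item Pr: products of the Euler products
-/

namespace Pool.Agent.Work.MP_f1a024_nt.NE

theorem pr_Pr (hEP : StEP) : StPr := by
  intro c₁ c₂ c₃ hc m hm
  have h12 := (hEP c₁ m hm).mul (hEP c₂ m hm)
  have h3 := hEP c₃ m hm
  have e : (fun p : Nat.Primes => 1 + ((c₃ p : ℕ) : ℝ) / (((p : ℕ) : ℝ) ^ m - 1)) =
      fun p : Nat.Primes => (1 + ((c₁ p : ℕ) : ℝ) / (((p : ℕ) : ℝ) ^ m - 1)) *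
        (1 + ((c₂ p : ℕ) : ℝ) / (((p : ℕ) : ℝ) ^ m - 1)) := by
    funext p
    rcases hc p p.2 with ⟨h1, h2⟩ | ⟨h1, h2⟩
    · rw [h2, h1]
      simp
    · rw [h2, h1]
      simp
  rw [e] at h3
  exact h3.unique h12

end Pool.Agent.Work.MP_f1a024_nt.NE
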