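import Pool.Agent.Work.MP_f1a024_nt.NE.Stmts

set_option autoImplicit false

/-!
# MP_f1a024 NE: item Sn, sine sums of odd quadratic characters
-/

namespace Pool.Agent.Work.MP_f1a024_nt.NE

namespace ISn

/-- The difference of the values of the standard additive character at `a k` and `- a k`. -/
theorem std_sub (q : ℕ) [NeZero q] (a : ZMod q) (k : ℕ) :
    (ZMod.stdAddChar (a * (k : ZMod q)) : ℂ) - ZMod.stdAddChar (a * (-(k : ZMod q))) =
      2 * Complex.I *
        ((Real.sin (2 * Real.pi * k * ((a.val : ℝ) / q)) : ℝ) : ℂ) := by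
  have h1 : a * (k : ZMod q) = (((a.val * k : ℕ) : ℤ) : ZMod q) := by
    push_cast
    rw [ZMod.natCast_zmod_val]
  have h2 : a * (-(k : ZMod q)) = ((-((a.val * k : ℕ) : ℤ) : ℤ) : ZMod q) := by
    rw [mul_neg, h1]
    push_cast
    rfl
  rw [h1, h2, ZMod.stdAddChar_coe, ZMod.stdAddChar_coe]
  set x : ℝ := 2 * Real.pi * k * ((a.val : ℝ) / q) with hx
  have e1 : 2 * (Real.pi : ℂ) * Complex.I * (((a.val * k : ℕ) : ℤ) : ℂ) / q = (x : ℂ) * Complex.I := by
    rw [hx]
    push_cast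
    ring
  have e2 : 2 * (Real.pi : ℂ) * Complex.I * ((-((a.val * k : ℕ) : ℤ) : ℤ) : ℂ) / q =
      -(x : ℂ) * Complex.I := by
    rw [hx]
    push_cast
    ring
  rw [e1, e2, Complex.ofReal_sin, Complex.exp_mul_I, Complex.exp_mul_I, Complex.cos_neg,
    Complex.sin_neg]
  ring

end ISn

/-- Item Sn. -/
theorem pr_Sn (hGs : StGs) : StSn := by
  intro q _ χ hχ
  obtain ⟨τ, hτ, hg⟩ := hGs q χ hχ
  refine ⟨-Complex.I * τ, ?_, fun k => ?_⟩
  · rw [mul_pow, neg_sq, Complex.I_sq, hτ]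
    ring
  · have h1 := hg (k : ZMod q)
    have h2 := hg (-(k : ZMod q))
    rw [hχ.odd.eval_neg] at h2
    have h3 : ∑ a : ZMod q, χ a * ((ZMod.stdAddChar (a * (k : ZMod q)) : ℂ) -
        ZMod.stdAddChar (a * (-(k : ZMod q)))) = 2 * (χ (k : ZMod q) * τ) := by
      simp only [mul_sub, Finset.sum_sub_distrib]
      rw [h1, h2]
      ring
    simp only [ISn.std_sub] at h3
    have h4 : ∑ a : ZMod q, χ a * (2 * Complex.I *
        ((Real.sin (2 * Real.pi * k * ((a.val : ℝ) / q)) : ℝ) : ℂ)) =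
        2 * Complex.I * ∑ a : ZMod q, χ a *
          ((Real.sin (2 * Real.pi * k * ((a.val : ℝ) / q)) : ℝ) : ℂ) := by
      rw [Finset.mul_sum]
      refine Finset.sum_congr rfl fun a _ => ?_
      ring
    rw [h4] at h3
    have h5 : (2 * Complex.I) * (∑ a : ZMod q, χ a *
          ((Real.sin (2 * Real.pi * k * ((a.val : ℝ) / q)) : ℝ) : ℂ)) =
        (2 * Complex.I) * (χ (k : ZMod q) * (-Complex.I * τ)) := by
      rw [h3]
      have : (2 * Complex.I) * (χ (k : ZMod q) * (-Complex.I * τ)) =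
        -(Complex.I * Complex.I) * (2 * (χ (k : ZMod q) * τ)) := by ring
      rw [this, Complex.I_mul_I]
      ring
    exact mul_left_cancel₀ (mul_ne_zero two_ne_zero Complex.I_ne_zero) h5

end Pool.Agent.Work.MP_f1a024_nt.NE
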