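import Pool.Agent.Work.MP_f1a024_nt.NE.Stmts

set_option autoImplicit false

/-!
# Item Tay (helper15): no roots slightly to the right of a rational number

`V^d P((U + z)/V)` is a polynomial in `z` with integer coefficients.
-/

namespace Pool.Agent.Work.MP_f1a024_nt.NE

namespace ITay

open Polynomial

theorem ev_eq (Q : Polynomial ℤ) (d : ℕ) (hd : Q.natDegree ≤ d) (z : ℝ) :
    ev Q z = ∑ j ∈ Finset.range (d + 1), (Q.coeff j : ℝ) * z ^ j := by
  unfold ev
  rw [Polynomial.eval_eq_sum_range' (n := d + 1)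
    (lt_of_le_of_lt (natDegree_map_le) (Nat.lt_succ_of_le hd))]
  refine Finset.sum_congr rfl fun j _ => ?_
  rw [coeff_map]
  rfl

theorem key (Q : Polynomial ℤ) (d : ℕ) (M z : ℝ) (hQ : Q ≠ 0) (hd : Q.natDegree ≤ d)
    (hM : ∀ j, |(Q.coeff j : ℝ)| ≤ M) (hz : 0 < z) (h : (d + 1) * M * z < 1) : ev Q z ≠ 0 := by
  set j0 := Q.natTrailingDegree with hj0
  have hq : Q.coeff j0 ≠ 0 := trailingCoeff_nonzero_iff_nonzero.2 hQ
  have h1 : (1 : ℝ) ≤ |(Q.coeff j0 : ℝ)| := by exact_mod_cast Int.one_le_abs hq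
  have hM1 : 1 ≤ M := h1.trans (hM j0)
  have hz1 : z ≤ 1 := by
    have h2 : (1 : ℝ) ≤ (d + 1) * M := by
      have : (0 : ℝ) ≤ d := Nat.cast_nonneg d
      nlinarith
    nlinarith
  intro h0
  rw [ev_eq Q d hd z] at h0
  have hmem : j0 ∈ Finset.range (d + 1) :=
    Finset.mem_range.2 (Nat.lt_succ_of_le ((natTrailingDegree_le_natDegree Q).trans hd))
  rw [← Finset.add_sum_erase _ _ hmem] at h0
  have h2 : |(Q.coeff j0 : ℝ)| * z ^ j0 ≤ (d + 1) * (M * z ^ (j0 + 1)) := by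
    have h3 : |(Q.coeff j0 : ℝ)| * z ^ j0 =
        |∑ j ∈ (Finset.range (d + 1)).erase j0, (Q.coeff j : ℝ) * z ^ j| := by
      have h4 : ∑ j ∈ (Finset.range (d + 1)).erase j0, (Q.coeff j : ℝ) * z ^ j =
          -((Q.coeff j0 : ℝ) * z ^ j0) := by linarith
      rw [h4, abs_neg, abs_mul, abs_of_pos (pow_pos hz j0)]
    rw [h3]
    refine (Finset.abs_sum_le_sum_abs _ _).trans ?_
    have h5 : ∀ j ∈ (Finset.range (d + 1)).erase j0, |(Q.coeff j : ℝ) * z ^ j| ≤
        M * z ^ (j0 + 1) := by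
      intro j hj
      rw [Finset.mem_erase] at hj
      rcases lt_or_gt_of_ne hj.1 with h6 | h6
      · rw [coeff_eq_zero_of_lt_natTrailingDegree h6]
        simp only [Int.cast_zero, zero_mul, abs_zero]
        positivity
      · rw [abs_mul, abs_of_pos (pow_pos hz j)]
        exact mul_le_mul (hM j) (pow_le_pow_of_le_one hz.le hz1 h6) (pow_pos hz j).le
          (by linarith)
    refine (Finset.sum_le_card_nsmul _ _ _ h5).trans ?_
    rw [nsmul_eq_mul]
    refine mul_le_mul_of_nonneg_right ?_ (by positivity)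
    have h7 : ((Finset.range (d + 1)).erase j0).card ≤ d + 1 :=
      (Finset.card_le_card (Finset.erase_subset _ _)).trans_eq (Finset.card_range _)
    exact_mod_cast h7
  have h8 : z ^ j0 ≤ |(Q.coeff j0 : ℝ)| * z ^ j0 := le_mul_of_one_le_left (pow_pos hz j0).le h1
  have h9 : (d + 1) * (M * z ^ (j0 + 1)) = (d + 1) * M * z * z ^ j0 := by ring
  have h10 : (d + 1) * M * z * z ^ j0 < 1 * z ^ j0 := mul_lt_mul_of_pos_right h (pow_pos hz j0)
  linarith

/-- the integer polynomial `V^d P((U + z)/V)` -/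
noncomputable def QQ (P : Polynomial ℤ) (d U V : ℕ) : Polynomial ℤ :=
  ∑ i ∈ Finset.range (d + 1), C (P.coeff i * (V : ℤ) ^ (d - i)) * (X + C (U : ℤ)) ^ i

theorem ev_QQ (P : Polynomial ℤ) (d U V : ℕ) (hV : 0 < V) (hd : P.natDegree ≤ d) (z : ℝ) :
    ev (QQ P d U V) z = (V : ℝ) ^ d * ev P ((U + z) / V) := by
  have hV0 : (V : ℝ) ≠ 0 := by positivity
  rw [ev_eq P d hd]
  unfold ev QQ
  rw [Polynomial.map_sum, eval_finsetSum, Finset.mul_sum]
  refine Finset.sum_congr rfl fun i hi => ?_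
  have hi' : i ≤ d := Nat.lt_succ_iff.1 (Finset.mem_range.1 hi)
  have e : (V : ℝ) ^ d = (V : ℝ) ^ (d - i) * (V : ℝ) ^ i := by
    rw [← pow_add, Nat.sub_add_cancel hi']
  rw [Polynomial.map_mul, Polynomial.map_C, Polynomial.map_pow, Polynomial.map_add,
    Polynomial.map_X, Polynomial.map_C, eval_mul, eval_C, eval_pow, eval_add, eval_X, eval_C,
    e, div_pow]
  simp only [_root_.map_mul, _root_.map_pow, eq_intCast, Int.cast_natCast]
  field_simp
  ring

theorem deg_QQ (P : Polynomial ℤ) (d U V : ℕ) : (QQ P d U V).natDegree ≤ d := by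
  unfold QQ
  refine natDegree_sum_le_of_forall_le _ _ fun i hi => ?_
  have hi' : i ≤ d := Nat.lt_succ_iff.1 (Finset.mem_range.1 hi)
  refine (natDegree_C_mul_le _ _).trans ((natDegree_pow_le).trans ?_)
  rw [natDegree_X_add_C, mul_one]
  exact hi'

theorem coeff_QQ (P : Polynomial ℤ) (d U V : ℕ) (b : ℝ) (hb : 1 ≤ b) (hU : 0 < U) (hV : 0 < V)
    (hP : ∀ i, |(P.coeff i : ℝ)| ≤ b) (j : ℕ) :
    |((QQ P d U V).coeff j : ℝ)| ≤ (d + 1) * 2 ^ d * b * (U : ℝ) ^ d * (V : ℝ) ^ d := by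
  have hU1 : (1 : ℝ) ≤ U := by exact_mod_cast hU
  have hV1 : (1 : ℝ) ≤ V := by exact_mod_cast hV
  have e : ((QQ P d U V).coeff j : ℝ) = ∑ i ∈ Finset.range (d + 1),
      (P.coeff i : ℝ) * (V : ℝ) ^ (d - i) * ((U : ℝ) ^ (i - j) * (i.choose j : ℝ)) := by
    unfold QQ
    rw [finsetSum_coeff, Int.cast_sum]
    refine Finset.sum_congr rfl fun i _ => ?_
    rw [coeff_C_mul, coeff_X_add_C_pow]
    push_cast
    ring
  rw [e]
  refine (Finset.abs_sum_le_sum_abs _ _).trans ?_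
  have h : ∀ i ∈ Finset.range (d + 1),
      |(P.coeff i : ℝ) * (V : ℝ) ^ (d - i) * ((U : ℝ) ^ (i - j) * (i.choose j : ℝ))| ≤
        b * (V : ℝ) ^ d * ((U : ℝ) ^ d * 2 ^ d) := by
    intro i hi
    have hi' : i ≤ d := Nat.lt_succ_iff.1 (Finset.mem_range.1 hi)
    rw [abs_mul, abs_mul, abs_of_nonneg (by positivity : (0 : ℝ) ≤ (V : ℝ) ^ (d - i)),
      abs_of_nonneg (by positivity : (0 : ℝ) ≤ (U : ℝ) ^ (i - j) * (i.choose j : ℝ))]
    have h1 : (V : ℝ) ^ (d - i) ≤ (V : ℝ) ^ d := pow_le_pow_right₀ hV1 (by omega)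
    have h2 : (U : ℝ) ^ (i - j) ≤ (U : ℝ) ^ d := pow_le_pow_right₀ hU1 (by omega)
    have h3 : (i.choose j : ℝ) ≤ 2 ^ d := by
      have h4 : i.choose j ≤ 2 ^ d :=
        (Nat.choose_le_two_pow i j).trans (Nat.pow_le_pow_right (by norm_num) hi')
      exact_mod_cast h4
    exact mul_le_mul (mul_le_mul (hP i) h1 (by positivity) (by linarith))
      (mul_le_mul h2 h3 (by positivity) (by positivity)) (by positivity) (by positivity)
  refine (Finset.sum_le_card_nsmul _ _ _ h).trans (le_of_eq ?_)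
  rw [Finset.card_range, nsmul_eq_mul]
  push_cast
  ring

end ITay

open ITay in
/-- Item Tay. -/
theorem pr_Tay : StTay := by
  intro d b P hb hP U V ε hU hV hε h
  have hV0 : (V : ℝ) ≠ 0 := by positivity
  have hU0 : (0 : ℝ) < U := by exact_mod_cast hU
  have hQ : QQ P d U V ≠ 0 := by
    intro h0
    refine hP.ne ?_
    have h1 : P.map (Int.castRingHom ℝ) = 0 := by
      refine Polynomial.funext fun x => ?_
      have h2 := ev_QQ P d U V hV hP.deg (V * x - U)
      rw [h0] at h2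
      have h3 : ((U : ℝ) + (V * x - U)) / V = x := by
        field_simp
        ring
      have h4 : ev (0 : Polynomial ℤ) (V * x - U) = 0 := by simp [ev]
      rw [h3, h4] at h2
      have h5 : ev P x = 0 := by
        rcases mul_eq_zero.1 h2.symm with h6 | h6
        · exact absurd h6 (pow_ne_zero _ hV0)
        · exact h6
      rw [Polynomial.eval_zero]
      exact h5
    exact (Polynomial.map_eq_zero_iff (RingHom.injective_int _)).1 h1
  have h1 := key (QQ P d U V) d _ (U * ε) hQ (deg_QQ P d U V)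
    (coeff_QQ P d U V b hb hU hV hP.coe) (mul_pos hU0 hε) (by
      refine lt_of_eq_of_lt ?_ h
      ring)
  rw [ev_QQ P d U V hV hP.deg] at h1
  have h2 : ((U : ℝ) + U * ε) / V = (U : ℝ) / V * (1 + ε) := by ring
  rw [h2] at h1
  exact fun h3 => h1 (by rw [h3, mul_zero])

end Pool.Agent.Work.MP_f1a024_nt.NE

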