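import Pool.Agent.Work.MP_f1a024_nt.NE.Stmts

set_option autoImplicit false

/-! # MP_f1a024 NE, item Tl: tails -/

namespace Pool.Agent.Work.MP_f1a024_nt.NE

open Pool.Agent.Work.MP_f1a024_nt.AH (PG IsP val Ind)

/-- `hh c n` depends only on the values below `n + 1` -/
theorem ITl.congr (c c' : ℕ → Fin 3) (N n : ℕ) (hc : ∀ p < N, c p = c' p) (hn : n < N) :
    hh c n = hh c' n := by
  show (if n = 0 then (0 : ℚ) else ∏ p ∈ n.primeFactors, ((c p : ℕ) : ℚ)) =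
    (if n = 0 then (0 : ℚ) else ∏ p ∈ n.primeFactors, ((c' p : ℕ) : ℚ))
  split_ifs with h
  · rfl
  · refine Finset.prod_congr rfl fun p hp => ?_
    rw [hc p (lt_of_le_of_lt (Nat.le_of_mem_primeFactors hp) hn)]

theorem pr_Tl (hH1 : StH1) : StTl := by
  intro N hN
  have hs3 : Summable fun i : ℕ => 1 / (((i + N : ℕ) : ℝ)) ^ 3 :=
    (summable_nat_add_iff (f := fun i : ℕ => 1 / (i : ℝ) ^ 3) N).2
      (Real.summable_one_div_nat_pow.2 (by norm_num))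
  have hN' : (0 : ℝ) < N := by exact_mod_cast hN
  refine ⟨(N : ℝ) ^ 4 * ∑' i : ℕ, 1 / (((i + N : ℕ) : ℝ)) ^ 3, 4,
    mul_nonneg (by positivity) (tsum_nonneg fun i => by positivity), ?_⟩
  intro m hm c c' hc
  have h1 := (hH1 c).2.2.2.2 m (by omega)
  have h2 := (hH1 c').2.2.2.2 m (by omega)
  set g : ℕ → ℝ := fun n => ((hh c n : ℚ) : ℝ) / (n : ℝ) ^ m - ((hh c' n : ℚ) : ℝ) / (n : ℝ) ^ m
    with hg
  have hgs : Summable g := h1.sub h2
  have hd : rho c m - rho c' m = ∑' n, g n := (h1.tsum_sub h2).symm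
  have hz : ∑ n ∈ Finset.range N, g n = 0 := by
    refine Finset.sum_eq_zero fun n hn => ?_
    simp only [hg]
    rw [ITl.congr c c' N n hc (Finset.mem_range.1 hn), sub_self]
  have hsp : ∑' n, g n = ∑' i, g (i + N) := by
    rw [← hgs.sum_add_tsum_nat_add N, hz, zero_add]
  have hb : ∀ i : ℕ, ‖g (i + N)‖ ≤
      (N : ℝ) ^ 4 * (1 / (N : ℝ)) ^ m * (1 / (((i + N : ℕ) : ℝ)) ^ 3) := by
    intro i
    set n := i + N with hn
    have hnN : (N : ℝ) ≤ n := by exact_mod_cast (by omega : N ≤ n)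
    have hn0 : (0 : ℝ) < n := lt_of_lt_of_le hN' hnN
    have ha := (hH1 c).2.2.2.1 n
    have hb := (hH1 c').2.2.2.1 n
    have ha1 : (0 : ℝ) ≤ ((hh c n : ℚ) : ℝ) := by exact_mod_cast ha.1
    have ha2 : ((hh c n : ℚ) : ℝ) ≤ n := by exact_mod_cast ha.2
    have hb1 : (0 : ℝ) ≤ ((hh c' n : ℚ) : ℝ) := by exact_mod_cast hb.1
    have hb2 : ((hh c' n : ℚ) : ℝ) ≤ n := by exact_mod_cast hb.2
    have hab : |((hh c n : ℚ) : ℝ) - ((hh c' n : ℚ) : ℝ)| ≤ n := by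
      rw [abs_le]; constructor <;> linarith
    have hgn : ‖g n‖ ≤ n / (n : ℝ) ^ m := by
      simp only [hg]
      rw [← sub_div, Real.norm_eq_abs, abs_div, abs_of_pos (pow_pos hn0 m)]
      exact div_le_div_of_nonneg_right hab (pow_pos hn0 m).le
    refine hgn.trans ?_
    obtain ⟨k, rfl⟩ := Nat.exists_eq_add_of_le hm
    have e1 : (n : ℝ) / (n : ℝ) ^ (4 + k) = (1 / (n : ℝ)) ^ k * (1 / (n : ℝ) ^ 3) := by
      rw [pow_add, one_div_pow]; field_simp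
    have e2 : (N : ℝ) ^ 4 * (1 / (N : ℝ)) ^ (4 + k) = (1 / (N : ℝ)) ^ k := by
      rw [pow_add, ← mul_assoc, ← mul_pow]
      rw [mul_one_div_cancel hN'.ne', one_pow, one_mul]
    rw [e1, e2]
    refine mul_le_mul_of_nonneg_right ?_ (by positivity)
    exact pow_le_pow_left₀ (by positivity) (one_div_le_one_div_of_le hN' hnN) k
  have hsum : Summable fun i : ℕ =>
      (N : ℝ) ^ 4 * (1 / (N : ℝ)) ^ m * (1 / (((i + N : ℕ) : ℝ)) ^ 3) := hs3.mul_left _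
  rw [hd, hsp, ← Real.norm_eq_abs]
  calc ‖∑' i, g (i + N)‖ ≤ ∑' i : ℕ,
        (N : ℝ) ^ 4 * (1 / (N : ℝ)) ^ m * (1 / (((i + N : ℕ) : ℝ)) ^ 3) :=
        tsum_of_norm_bounded hsum.hasSum hb
    _ = (N : ℝ) ^ 4 * (∑' i : ℕ, 1 / (((i + N : ℕ) : ℝ)) ^ 3) * (1 / (N : ℝ)) ^ m := by
        rw [tsum_mul_left]; ring

end Pool.Agent.Work.MP_f1a024_nt.NE
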