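import Pool.Agent.Work.MP_f1a024_nt.NE.Stmts

set_option autoImplicit false

/-!
# Item ZL: the quotient of the zeta function and the L-function
-/

namespace Pool.Agent.Work.MP_f1a024_nt.NE

open Pool.Agent.Work.MP_f1a024_nt.AH (PG IsP val Ind)
open Filter Topology

namespace IZL

/-- The completely multiplicative function `k ↦ f k / k^m`. -/
noncomputable def gf (f : ℕ → ℤ) (hf : Sg f) (m : ℕ) : ℕ →*₀ ℝ where
  toFun k := (f k : ℝ) / (k : ℝ) ^ m
  map_zero' := by rw [hf.zero, Int.cast_zero, zero_div]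
  map_one' := by rw [hf.one, Int.cast_one, Nat.cast_one, one_pow, div_one]
  map_mul' a b := by rw [hf.mul, Int.cast_mul, Nat.cast_mul, mul_pow, mul_div_mul_comm]

/-- The completely multiplicative function `k ↦ 1 / k^m`. -/
noncomputable def gz (m : ℕ) (hm : m ≠ 0) : ℕ →*₀ ℝ where
  toFun k := 1 / (k : ℝ) ^ m
  map_zero' := by rw [Nat.cast_zero, zero_pow hm, div_zero]
  map_one' := by rw [Nat.cast_one, one_pow, div_one]
  map_mul' a b := by rw [Nat.cast_mul, mul_pow, one_div_mul_one_div]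

theorem abs_f {f : ℕ → ℤ} (hf : Sg f) (k : ℕ) : |(f k : ℝ)| ≤ 1 := by
  rcases hf.val k with h | h | h <;> rw [h] <;> norm_num

theorem sum_z {m : ℕ} (hm : 3 ≤ m) : Summable fun k : ℕ => 1 / (k : ℝ) ^ m :=
  Real.summable_one_div_nat_pow.2 (by omega)

theorem norm_le {f : ℕ → ℤ} (hf : Sg f) (m k : ℕ) :
    ‖(f k : ℝ) / (k : ℝ) ^ m‖ ≤ 1 / (k : ℝ) ^ m := by
  rw [norm_div, Real.norm_eq_abs, norm_pow, Real.norm_eq_abs, Nat.abs_cast]
  exact div_le_div_of_nonneg_right (abs_f hf k) (by positivity)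

theorem dual_cast {f : ℕ → ℤ} (hf : Sg f) (p : ℕ) :
    ((dual f p : ℕ) : ℝ) = 1 - (f p : ℝ) := by
  unfold dual
  rcases hf.val p with h | h | h
  · rw [h, if_neg (by norm_num), if_neg (by norm_num)]
    norm_num
  · rw [h, if_neg (by norm_num), if_pos rfl]
    norm_num
  · rw [h, if_pos rfl]
    norm_num

theorem factor {f : ℕ → ℤ} (hf : Sg f) {m : ℕ} (hm : 3 ≤ m) {p : ℕ} (hp : p.Prime) :
    (1 + ((dual f p : ℕ) : ℝ) / ((p : ℝ) ^ m - 1)) * (1 - (f p : ℝ) / (p : ℝ) ^ m)⁻¹ =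
      (1 - 1 / (p : ℝ) ^ m)⁻¹ := by
  have hP : (1 : ℝ) < (p : ℝ) ^ m := by
    have h1 : (1 : ℝ) < p := by exact_mod_cast hp.one_lt
    exact one_lt_pow₀ h1 (by omega)
  have hf1 : (f p : ℝ) ≤ 1 := (le_abs_self _).trans (abs_f hf p)
  rw [dual_cast hf]
  have h1 : (p : ℝ) ^ m - 1 ≠ 0 := by linarith
  have h2 : (p : ℝ) ^ m - (f p : ℝ) ≠ 0 := by
    have : 0 < (p : ℝ) ^ m - (f p : ℝ) := by linarith
    exact this.ne'
  have h3 : (p : ℝ) ^ m ≠ 0 := by linarith
  generalize (p : ℝ) ^ m = P at h1 h2 h3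
  generalize (f p : ℝ) = F at h2
  have e1 : 1 + (1 - F) / (P - 1) = (P - F) / (P - 1) := by
    field_simp
    ring
  have e2 : 1 - F / P = (P - F) / P := by
    field_simp
  have e3 : 1 - 1 / P = (P - 1) / P := by
    field_simp
  rw [e1, e2, e3, inv_div, inv_div, div_mul_div_comm, mul_comm (P - F) P, mul_div_mul_right _ _ h2]

end IZL

theorem pr_ZL (hEP : StEP) : StZL := by
  intro f hf m hm
  have hs : Summable fun k : ℕ => ‖(f k : ℝ) / (k : ℝ) ^ m‖ :=
    Summable.of_nonneg_of_le (fun _ => norm_nonneg _) (IZL.norm_le hf m) (IZL.sum_z hm)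
  refine ⟨hs.of_norm, ?_⟩
  have h1 := hEP (dual f) m hm
  have h2 := EulerProduct.eulerProduct_completely_multiplicative_hasProd
    (f := IZL.gf f hf m) hs
  have h3 := EulerProduct.eulerProduct_completely_multiplicative_hasProd
    (f := IZL.gz m (by omega)) (IZL.sum_z hm).norm
  have h4 := h1.mul h2
  have h5 : (fun p : Nat.Primes => (1 + ((dual f p : ℕ) : ℝ) / (((p : ℕ) : ℝ) ^ m - 1)) *
      (1 - IZL.gf f hf m p)⁻¹) = fun p : Nat.Primes => (1 - IZL.gz m (by omega) p)⁻¹ :=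
    funext fun p => IZL.factor hf hm p.2
  rw [h5] at h4
  exact h4.unique h3

end Pool.Agent.Work.MP_f1a024_nt.NE
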