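import Pool.Agent.Work.MP_f1a024_nt.AH.Final
import Pool.Agent.Work.MP_f1a024_nt.NE.I_H1
import Pool.Agent.Work.MP_f1a024_nt.NE.I_EP
import Pool.Agent.Work.MP_f1a024_nt.NE.I_Pr
import Pool.Agent.Work.MP_f1a024_nt.NE.I_Tl
import Pool.Agent.Work.MP_f1a024_nt.NE.I_Bd
import Pool.Agent.Work.MP_f1a024_nt.NE.I_Cut
import Pool.Agent.Work.MP_f1a024_nt.NE.I_Fin
import Pool.Agent.Work.MP_f1a024_nt.NE.I_Pl
import Pool.Agent.Work.MP_f1a024_nt.NE.I_Tay
import Pool.Agent.Work.MP_f1a024_nt.NE.I_Ind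
import Pool.Agent.Work.MP_f1a024_nt.NE.I_Far
import Pool.Agent.Work.MP_f1a024_nt.NE.I_Nb
import Pool.Agent.Work.MP_f1a024_nt.NE.I_Nf
import Pool.Agent.Work.MP_f1a024_nt.NE.I_Cpt
import Pool.Agent.Work.MP_f1a024_nt.NE.I_A
import Pool.Agent.Work.MP_f1a024_nt.NE.I_ZL
import Pool.Agent.Work.MP_f1a024_nt.NE.I_Chr
import Pool.Agent.Work.MP_f1a024_nt.NE.I_Gs
import Pool.Agent.Work.MP_f1a024_nt.NE.I_Sn
import Pool.Agent.Work.MP_f1a024_nt.NE.I_Ln
import Pool.Agent.Work.MP_f1a024_nt.NE.I_B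

set_option autoImplicit false

/-!
# MP_f1a024 NE: assembly
-/

namespace Pool.Agent.Work.MP_f1a024_nt.NE

theorem qH1 : StH1 := pr_H1
theorem qEP : StEP := pr_EP qH1
theorem qPr : StPr := pr_Pr qEP
theorem qTl : StTl := pr_Tl qH1
theorem qBd : StBd := pr_Bd qH1 qTl
theorem qCut : StCut := pr_Cut qH1 qTl
theorem qFin : StFin := pr_Fin qEP
theorem qPl : StPl := pr_Pl
theorem qTay : StTay := pr_Tay
theorem qInd : StInd := pr_Ind AH.prfD5
theorem qFar : StFar := pr_Far qH1 qInd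
theorem qNb : StNb := pr_Nb qTl qBd qPl qFar
theorem qNf : StNf := pr_Nf qPr qCut qFin qTay
theorem qCpt : StCpt := pr_Cpt
theorem qA : StA := pr_A qNb qNf qCpt
theorem qZL : StZL := pr_ZL qEP
theorem qChr : StChr := pr_Chr
theorem qGs : StGs := pr_Gs
theorem qSn : StSn := pr_Sn qGs
theorem qLn : StLn := pr_Ln qSn

/-- no formula of Euler's type for odd `n` -/
theorem main : StB := pr_B qA qZL qChr qLn

end Pool.Agent.Work.MP_f1a024_nt.NE
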