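import Pool.Agent.Work.MP_f1a024_nt.NE.Defs

set_option autoImplicit false

/-!
# MP_f1a024 NE: statements, each with its complete proof (captain helper56)

THEOREM B (`StB`).  For all `d`, `B` there is `M` such that for all odd `n ≥ M` and ALL odd primitive
quadratic characters `χ` (all imaginary quadratic fields, the modulus `q` is not bounded) the number
`x = ζ(n)/L(n,χ)` is not a root of a nonzero integer polynomial of degree `≤ d` with coefficients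
`≤ B^n`.  Here `t(n) C(2n,n) b^2 x^2 = 2 q B_(2n)`, `b = ∑ χ(a) B_n(a/q)`, `t(n) = ζ(2n)/ζ(n)^2`.

The results of the block AH (`Work/MP_f1a024_nt/AH/Final.lean`: `d4`, `d8`, `d9`; `prfD1`, `prfD2`,
`prfD5`, `prfD13`) are theorems; items may import `AH.Final` and use them.  Item `X`: statement `StX`,
file `NE/I_X.lean`, theorem `pr_X`, hypotheses named in the docstring.
-/

namespace Pool.Agent.Work.MP_f1a024_nt.NE

open Pool.Agent.Work.MP_f1a024_nt.AH (PG IsP val Ind)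
open Filter Topology

/-! ## 1. The functions `hh c` and `rho c` -/

/-- [H1] `hh c` is multiplicative: the prime factors of a product of coprime numbers are the disjoint
union (`Nat.Coprime.primeFactors_mul`, `Nat.Coprime.disjoint_primeFactors`).  `0 ≤ hh c n ≤ n`: each
factor is `≤ 2 ≤ p`, and `∏ p ≤ n` (`Nat.prod_primeFactors_dvd`).  `PG`: `C = 1`, `A = 1`. -/
def StH1 : Prop := ∀ c : ℕ → Fin 3, (hh c).IsMultiplicative ∧ PG (hh c) ∧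
  (∀ p : ℕ, p.Prime → hh c p = ((c p : ℕ) : ℚ)) ∧ (∀ n, 0 ≤ hh c n ∧ hh c n ≤ n) ∧
  ∀ m : ℕ, 3 ≤ m → Summable fun n : ℕ => ((hh c n : ℚ) : ℝ) / (n : ℝ) ^ m

/-- [EP] (hH1 : StH1) Euler product, `m ≥ 3`.  `EulerProduct.eulerProduct_hasProd` for the function
`n ↦ hh c n / n^m` (multiplicative on coprime arguments, absolutely summable by `StH1`, value `1` at
`1`): `hh c (p^e) = c p` for `e ≥ 1`, so `∑_e hh c (p^e) / p^(e m) = 1 + c p ∑_(e ≥ 1) p^(-e m) =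
1 + c p / (p^m - 1)` (geometric series). -/
def StEP : Prop := ∀ (c : ℕ → Fin 3) (m : ℕ), 3 ≤ m →
  HasProd (fun p : Nat.Primes => 1 + ((c p : ℕ) : ℝ) / (((p : ℕ) : ℝ) ^ m - 1)) (rho c m)

/-- [Pr] (hEP : StEP) if at every prime one of `c₁`, `c₂` is zero and `c₃` is the other one, then
the Euler product of `c₃` is the product of the Euler products (`HasProd.mul`, `HasProd.unique`). -/
def StPr : Prop := ∀ (c₁ c₂ c₃ : ℕ → Fin 3),
  (∀ p : ℕ, p.Prime → (c₁ p = 0 ∧ c₃ p = c₂ p) ∨ (c₂ p = 0 ∧ c₃ p = c₁ p)) →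
  ∀ m : ℕ, 3 ≤ m → rho c₃ m = rho c₁ m * rho c₂ m

/-- [Tl] (hH1 : StH1) tails.  `hh c n` depends only on `c` at the prime factors of `n`, so
`hh c n = hh c' n` for `n < N`; the difference is at most `∑_(n ≥ N) n / n^m` (both functions are
between `0` and `n`), which is `≤ C (1/N)^m` for large `m`: `AH.d4` for the arithmetic function
`n ↦ n` (its tail is the sum over `n ≥ N`); or directly
`∑_(n ≥ N) n^(1-m) ≤ N^(4-m) ∑_(n ≥ N) n^(-3)` for `m ≥ 4`. -/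
def StTl : Prop := ∀ N : ℕ, 0 < N → ∃ (C : ℝ) (M : ℕ), 0 ≤ C ∧ ∀ m ≥ M, ∀ c c' : ℕ → Fin 3,
  (∀ p < N, c p = c' p) → |rho c m - rho c' m| ≤ C * (1 / (N : ℝ)) ^ m

/-- [Bd] (hH1 : StH1, hTl : StTl) `1 ≤ ρ_c(m) ≤ 2` for large `m`, uniformly in `c`: the term `n = 1`
is `1`, all terms are nonnegative, and `StTl` for `N = 2` and the zero function (`rho 0 m = 1`:
`hh 0 n = 0` for `n ≥ 2`), after changing `c` at `0`, `1` (`hh` does not see these values). -/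
def StBd : Prop := ∃ M : ℕ, ∀ m ≥ M, ∀ c : ℕ → Fin 3, 1 ≤ rho c m ∧ rho c m ≤ 2

/-- [Cut] (hH1 : StH1, hTl : StTl) functions which vanish at the primes below `N`.
`hh c n ≥ 0`, `hh c 1 = 1` and `hh c q = c q > 0` for some prime `q`, so `ρ_c(m) > 1` (`m ≥ 3`,
summable).  Upper bound: `StTl` for `c` and the zero function (change the values of `c` at the
numbers which are not prime to `0`, this does not change `hh c`). -/
def StCut : Prop := ∀ N : ℕ, 0 < N → ∃ (C : ℝ) (M : ℕ), 0 ≤ C ∧ ∀ m ≥ M, ∀ c : ℕ → Fin 3,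
  InfS c → (∀ p : ℕ, p.Prime → p < N → c p = 0) →
  1 < rho c m ∧ rho c m - 1 ≤ C * (1 / (N : ℝ)) ^ m

/-- [Fin] (hEP : StEP) functions with finite support on the primes.  Let `F` be the finite set of
the primes with `c p ≠ 0`.  By `StEP` (`hasProd_prod_of_ne_finset_one`, uniqueness)
`ρ_c(m) = ∏_(p ∈ F) (1 + c p/(p^m - 1)) = U/V`, `U = ∏_F (p^m - 1 + c p)`, `V = ∏_F (p^m - 1)`,
positive integers; `p^m - 1 + c p ≤ p^m + 1 ≤ (p + 1)^m`, so `A = ∏_F (p + 1)`. -/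
def StFin : Prop := ∀ c : ℕ → Fin 3, ¬ InfS c → ∃ A : ℕ, 0 < A ∧ ∀ m : ℕ, 3 ≤ m →
  ∃ U V : ℕ, 0 < U ∧ 0 < V ∧ U ≤ A ^ m ∧ V ≤ A ^ m ∧ rho c m = (U : ℝ) / V

/-! ## 2. Polynomials -/

/-- [Pl] Lipschitz bound on `[0, 2]`.  `x^i - y^i = (x - y) ∑ x^j y^(i-1-j)`, so
`|x^i - y^i| ≤ i 2^(i-1) |x - y| ≤ (d+1) 2^d |x - y|` for `i ≤ d`; sum over the `d + 1`
coefficients (`Polynomial.eval_eq_sum_range'`). -/
def StPl : Prop := ∀ (d : ℕ) (b : ℝ) (P : Polynomial ℤ), Bdp P d b → ∀ x y : ℝ, 0 ≤ x → x ≤ 2 →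
  0 ≤ y → y ≤ 2 → |ev P x - ev P y| ≤ (d + 1) ^ 2 * 2 ^ d * b * |x - y|

/-- [Tay] no roots slightly to the right of a rational number.  `r = U/V`, `y = r ε`, `Q` = the
Taylor polynomial of `P` at `r` (`Polynomial.taylor`), `P(r + y) = ∑_j τ_j y^j`,
`τ_j = ∑_i C(i,j) p_i r^(i-j)` (`Polynomial.taylor_coeff`, `hasseDeriv`).  `V^d τ_j` is an integer for
`j ≤ d`; `|τ_j| ≤ 2^d (d+1) b U^d` (`r ≤ U`, `1 ≤ U`); `Q ≠ 0` since `P ≠ 0`.  Let `j₀` be minimal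
with `τ_(j₀) ≠ 0`: `|τ_(j₀)| ≥ V^(-d)`, and `∑_(j > j₀) |τ_j| y^(j-j₀) ≤ y (d+1)^2 2^d b U^d < V^(-d)`
since `y ≤ U ε` and `y ≤ 1` (both by the hypothesis).  So `P(r + y) ≠ 0`. -/
def StTay : Prop := ∀ (d : ℕ) (b : ℝ) (P : Polynomial ℤ), 1 ≤ b → Bdp P d b →
  ∀ (U V : ℕ) (ε : ℝ), 0 < U → 0 < V → 0 < ε →
  ε * ((d + 1) ^ 2 * 2 ^ d * b * (U : ℝ) ^ (d + 1) * (V : ℝ) ^ d) < 1 →
  ev P ((U : ℝ) / V * (1 + ε)) ≠ 0

/-! ## 3. The Subspace theorem -/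

/-- [Ind] (AH.prfD5) Dirichlet powers of a multiplicative function which is not zero at infinitely
many primes are independent over Dirichlet polynomials.  As `AH.prfD13` (whose lemmas
`ID13.elim`, `ID13.key_prod` are public): `(h^i)(q) = i h(q)` for primes `q`.  Let
`∑ g_i h^i = 0`, `F_i = g_i h^i`, `n > 0`.  For different primes `q_1, .., q_s` with `h(q_j) ≠ 0`
larger than `n` and the supports of the `g_i`:
`0 = ∑_i F_i(n q_1 .. q_s) = ∑_i F_i(n) ∏_j (i h(q_j))`, so `∑_i i^s F_i(n) = 0` for `s = 0, .., d`;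
Vandermonde (or the elimination of `ID13.elim` restricted to these primes): `F_i(n) = 0`.  So
`g_i h^i = 0`, `g_i = 0` (`D5`, `h^i ≠ 0`). -/
def StInd : Prop := ∀ h : ArithmeticFunction ℚ, h.IsMultiplicative →
  {q : ℕ | q.Prime ∧ h q ≠ 0}.Infinite → ∀ d : ℕ, Ind fun i : Fin (d + 1) => h ^ (i : ℕ)

/-- [Far] (hH1 : StH1, hInd : StInd, AH.d9) `AH.d9` for the functions `(hh c)^i`, `i ≤ d` (`PG` by
`D1` and induction); `val ((hh c)^i) m = (rho c m)^i` for large `m` (`D2`, induction on `i`); compare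
`AH/ItemD12.lean`. -/
def StFar : Prop := ∀ c : ℕ → Fin 3, InfS c → ∀ (d : ℕ) (B : ℝ), 1 ≤ B →
  ∃ (θ : ℝ) (M : ℕ), 0 < θ ∧ ∀ m ≥ M, ∀ P : Polynomial ℤ, Bdp P d (B ^ m) →
    θ ^ m ≤ |ev P (rho c m)|

/-- [Nb] (hTl : StTl, hBd : StBd, hPl : StPl, hFar : StFar) neighbours of a function with infinite
support.  `θ ≤ 1` without loss.  Choose a natural number `N ≥ 2 B/θ`, `C` from `StTl`.  For `c'`
equal to `c` below `N`: `|P(ρ_(c'))| ≥ θ^m - (d+1)^2 2^d B^m C N^(-m)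
≥ θ^m (1 - (d+1)^2 2^d C 2^(-m)) > 0` for large `m`. -/
def StNb : Prop := ∀ c : ℕ → Fin 3, InfS c → ∀ (d : ℕ) (B : ℝ), 1 ≤ B → ∃ N M : ℕ,
  ∀ c' : ℕ → Fin 3, (∀ p < N, c p = c' p) → ∀ m ≥ M, ∀ P : Polynomial ℤ, Bdp P d (B ^ m) →
    ev P (rho c' m) ≠ 0

/-- [Nf] (hPr : StPr, hCut : StCut, hFin : StFin, hTay : StTay) neighbours of a function with finite
support on the primes.  `A` from `StFin`; choose `N` larger than all primes with `c p ≠ 0` and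
`N ≥ 2 B A^(2 d + 1)`.  Let `c'` have infinite support and agree with `c` below `N`.  By `StPr` for
`c`, `cut N c'`, `c'` (for primes `p < N`: `cut N c' p = 0`, `c' p = c p`; for `p ≥ N`: `c p = 0`,
`cut N c' p = c' p`) `ρ_(c')(m) = (U/V)(1 + ε)`, `ε = ρ_(cut N c')(m) - 1`, and by `StCut`
`0 < ε ≤ C N^(-m)`.  `StTay` with `b = B^m`:
`ε (d+1)^2 2^d B^m A^(m(2d+1)) ≤ C (d+1)^2 2^d 2^(-m) < 1` for large `m`. -/
def StNf : Prop := ∀ c : ℕ → Fin 3, ¬ InfS c → ∀ (d : ℕ) (B : ℝ), 1 ≤ B → ∃ N M : ℕ,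
  ∀ c' : ℕ → Fin 3, InfS c' → (∀ p < N, c p = c' p) → ∀ m ≥ M, ∀ P : Polynomial ℤ,
    Bdp P d (B ^ m) → ev P (rho c' m) ≠ 0

/-- [Cpt] compactness of `ℕ → Fin 3` (product of discrete finite spaces): the sets
`{c' | ∀ p < N_c, c p = c' p}` are open (finite intersection of preimages under the continuous
evaluations) and contain `c`; finitely many of them cover; take the maximum of the `M_c`. -/
def StCpt : Prop := ∀ Q : (ℕ → Fin 3) → ℕ → Prop,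
  (∀ c : ℕ → Fin 3, ∃ N M : ℕ, ∀ c' : ℕ → Fin 3, (∀ p < N, c p = c' p) → ∀ m ≥ M, Q c' m) →
  ∃ M : ℕ, ∀ c : ℕ → Fin 3, ∀ m ≥ M, Q c m

/-- [A] (hNb : StNb, hNf : StNf, hCpt : StCpt) THEOREM A.  `Q c m` = the conclusion at `m`
(`InfS c → ...`).  Replace `B` by `max |B| 1` (`B^m ≤ (max |B| 1)^m`). -/
def StA : Prop := ∀ (d : ℕ) (B : ℝ), ∃ M : ℕ, ∀ m ≥ M, ∀ c : ℕ → Fin 3, InfS c →
  ∀ P : Polynomial ℤ, Bdp P d (B ^ m) → ev P (rho c m) ≠ 0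

/-! ## 4. `L`-functions -/

/-- [ZL] (hEP : StEP) `ρ_(1-f)(m) L(m, f) = ζ(m)`.  `EulerProduct.eulerProduct_completely_multiplicative_hasProd`
for `n ↦ f n / n^m` and for `n ↦ 1 / n^m`, and `1 + (1 - f p)/(p^m - 1) = (1 - f p / p^m)/(1 - 1/p^m)`
(`((dual f p : ℕ) : ℝ) = 1 - f p`), `HasProd.mul`, uniqueness. -/
def StZL : Prop := ∀ f : ℕ → ℤ, Sg f → ∀ m : ℕ, 3 ≤ m →
  Summable (fun k : ℕ => (f k : ℝ) / (k : ℝ) ^ m) ∧
  rho (dual f) m * ∑' k : ℕ, (f k : ℝ) / (k : ℝ) ^ m = ∑' k : ℕ, 1 / (k : ℝ) ^ m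

/-- [Chr] the function `f` of an odd quadratic character.  By `MulChar.IsQuadratic` the values of
`χ` are `0`, `1`, `-1`: `f k` = the integer with `χ k = f k`.  `Sg`: `χ` is multiplicative,
`χ 0 = 0` (`q ≠ 1` because `χ (-1) = -1 ≠ 1`).  By Dirichlet's theorem
(`Nat.setOf_prime_and_eq_mod_infinite` or `Nat.infinite_setOf_prime_and_eq_mod`, `-1` is a unit) there are
infinitely many primes `p = -1` modulo `q`, and for these `f p = -1 ≠ 1`. -/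
def StChr : Prop := ∀ (q : ℕ) [NeZero q] (χ : DirichletCharacter ℂ q), Im q χ →
  ∃ f : ℕ → ℤ, Sg f ∧ (∀ k : ℕ, χ (k : ZMod q) = (f k : ℂ)) ∧ InfS (dual f)

/-- [Gs] Gauss sums.  `τ = gaussSum χ stdAddChar`.  `∑_a χ(a) ψ(a k) = χ⁻¹(k) τ`
(`gaussSum_mulShift_of_isPrimitive`), `χ⁻¹ = χ`.  `τ^2 = -q`:
`∑_k (∑_a χ(a) ψ(a k)) (∑_b χ(b) ψ(- b k)) = q ∑_a χ(a)^2` (orthogonality of the additive
characters, `AddChar.sum_mulShift`), the left side is `∑_k χ(k) τ χ(-k) τ = - τ^2 ∑_k χ(k)^2`, and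
`∑ χ(k)^2` is the number of units, not `0`. -/
def StGs : Prop := ∀ (q : ℕ) [NeZero q] (χ : DirichletCharacter ℂ q), Im q χ → ∃ τ : ℂ,
  τ ^ 2 = -(q : ℂ) ∧ ∀ k : ZMod q, ∑ a : ZMod q, χ a * ZMod.stdAddChar (a * k) = χ k * τ

/-- [Sn] (hGs : StGs) sines.  `stdAddChar (a k) = exp (2 π i a k / q)` (`ZMod.stdAddChar_coe`,
`ZMod.toCircle`), so by `StGs` for `k` and `-k` and `χ(-k) = -χ(k)`:
`2 i ∑_a χ(a) sin(2 π a k/q) = 2 χ(k) τ`; `s = -i τ`, `s^2 = - τ^2 = q`. -/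
def StSn : Prop := ∀ (q : ℕ) [NeZero q] (χ : DirichletCharacter ℂ q), Im q χ → ∃ s : ℂ,
  s ^ 2 = (q : ℂ) ∧ ∀ k : ℕ,
    ∑ a : ZMod q, χ a * ((Real.sin (2 * Real.pi * k * ((a.val : ℝ) / q)) : ℝ) : ℂ) =
      χ (k : ZMod q) * s

/-- [Ln] (hSn : StSn) the value `L(n, χ)` for odd `n`.  `hasSum_one_div_nat_pow_mul_sin` with
`n = 2 j + 1`, `x = a.val / q` in `[0, 1]`:
`∑_k sin(2 π k x)/k^n = (-1)^(j+1) (2π)^n / 2 / n! B_n(x)`.  Multiply by `χ(a)` and sum over `a`: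
`s ∑_k χ(k)/k^n = ± (2π)^n/(2 n!) b`; take squares. -/
def StLn : Prop := ∀ (q : ℕ) [NeZero q] (χ : DirichletCharacter ℂ q), Im q χ → ∀ n : ℕ, Odd n →
  3 ≤ n → ∀ L : ℂ, HasSum (fun k : ℕ => χ (k : ZMod q) / (k : ℂ) ^ n) L →
  4 * (n.factorial : ℂ) ^ 2 * q * L ^ 2 = (2 * Real.pi : ℂ) ^ (2 * n) * bb n q χ ^ 2

/-- [B] (hA : StA, hZL : StZL, hChr : StChr, hLn : StLn) THEOREM B.  Let `n ≥ max M 3` be odd, `f`
from `StChr`, `L = ∑ f k / k^n`, `ρ = ρ_(1-f)(n)`: `ρ L = ζ(n)` (`StZL`, `zeta_nat_eq_tsum_of_gt_one`).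
`riemannZeta_two_mul_nat` for `n` odd: `ζ(2n) = 2^(2n-1) π^(2n) B_(2n)/(2n)!`.  With `StLn`:
`t(n) C(2n,n) b^2 ρ^2 = 2 q B_(2n)`, `t(n) = ζ(2n)/(ρ L)^2`.  The right side is not zero
(`ζ(2n) ≠ 0`), so `x^2 = ρ^2`, `x = ρ` or `x = -ρ`; `P(x) = 0` gives `ev P ρ = 0` or
`ev (P(-X)) ρ = 0` (`Polynomial.comp`, `Bdp` is the same), which contradicts `StA`. -/
def StB : Prop := ∀ (d : ℕ) (B : ℝ), ∃ M : ℕ, ∀ n ≥ M, Odd n →
  ∀ (q : ℕ) [NeZero q] (χ : DirichletCharacter ℂ q), χ.IsPrimitive → χ.IsQuadratic → χ.Odd →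
  ∀ x : ℂ, riemannZeta (2 * n) / riemannZeta n ^ 2 * ((2 * n).choose n : ℂ) *
      (∑ a : ZMod q, χ a * (((Polynomial.bernoulli n).eval ((a.val : ℚ) / q) : ℚ) : ℂ)) ^ 2 *
      x ^ 2 = 2 * q * ((bernoulli (2 * n) : ℚ) : ℂ) →
  ∀ P : Polynomial ℤ, P ≠ 0 → P.natDegree ≤ d → (∀ i, |(P.coeff i : ℝ)| ≤ B ^ n) →
    Polynomial.aeval x P ≠ 0

end Pool.Agent.Work.MP_f1a024_nt.NE
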